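import Pool.Agent.Helper783_PC.Geo

/-!
Collineations which permute the coordinate points are monomial semilinear.
-/

set_option autoImplicit false
set_option linter.unusedSectionVars false

namespace Pool.Agent.Helper783_PC

open Equiv Equiv.Perm

section

variable {K : Type} [Field K] [Finite K]

/-- the preimage of a subspace under a collineation -/
noncomputable def comapS (g : Perm (P3 K)) (hg : g ∈ coll K) (W : Submodule K (Fin 4 → K)) :
    Submodule K (Fin 4 → K) where
  carrier := {v | v = 0 ∨ On (g (pt v)) W}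
  zero_mem' := Or.inl rfl
  add_mem' := by
    rintro u v hu hv
    by_cases h : u + v = 0
    · exact Or.inl h
    right
    by_cases hu0 : u = 0
    · subst hu0
      rw [zero_add] at h ⊢
      exact hv.resolve_left h
    by_cases hv0 : v = 0
    · subst hv0
      rw [add_zero] at h ⊢
      exact hu.resolve_left h
    have h1 : Col (pt u) (pt v) (pt (u + v)) := (col_pt hu0 hv0 h).2 ⟨1, 1, by simp⟩
    exact on_of_col (hg _ _ _ h1) (hu.resolve_left hu0) (hv.resolve_left hv0)
  smul_mem' := by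
    rintro c v hv
    by_cases hc : c = 0
    · left; rw [hc, zero_smul]
    rcases hv with hv | hv
    · left; rw [hv, smul_zero]
    · right; rw [pt_smul hc]; exact hv

lemma mem_comapS {g : Perm (P3 K)} {hg : g ∈ coll K} {W : Submodule K (Fin 4 → K)}
    {v : Fin 4 → K} : v ∈ comapS g hg W ↔ v = 0 ∨ On (g (pt v)) W := Iff.rfl

lemma rep_bp (i j : Fin 4) (h : i ≠ j) : (bp (K := K) i).rep j = 0 := by
  obtain ⟨c, -, hc⟩ := rep_pt (single_ne (K := K) i)
  unfold bp
  rw [hc]
  simp [h]

/-- the coordinate condition `w j = t w i` -/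
def Cond (i j : Fin 4) (t : K) : Submodule K (Fin 4 → K) where
  carrier := {w | w j = t * w i}
  zero_mem' := by simp
  add_mem' := by
    rintro u v (hu : _ = _) (hv : _ = _)
    show u j + v j = t * (u i + v i)
    rw [hu, hv]; ring
  smul_mem' := by
    rintro c v (hv : _ = _)
    show c * v j = t * (c * v i)
    rw [hv]; ring

/-- the coordinate condition `w i = 0` -/
def Zc (i : Fin 4) : Submodule K (Fin 4 → K) where
  carrier := {w | w i = 0}
  zero_mem' := by simp
  add_mem' := by
    rintro u v (hu : _ = _) (hv : _ = _)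
    show u i + v i = 0
    rw [hu, hv]; ring
  smul_mem' := by
    rintro c v (hv : _ = _)
    show c * v i = 0
    rw [hv]; ring

lemma sum_single (v : Fin 4 → K) : v = ∑ k, v k • (Pi.single k (1 : K) : Fin 4 → K) := by
  funext j
  simp [Finset.sum_apply, Pi.single_apply]

lemma nz_of {v : Fin 4 → K} {i : Fin 4} (h : v i ≠ 0) : v ≠ 0 := fun h0 => h (by rw [h0]; rfl)

variable {g : Perm (P3 K)}

lemma rep_ne (hg : g ∈ coll K) (hfix : ∀ i, g (bp i) = bp i) {v : Fin 4 → K} {i : Fin 4}
    (h : v i ≠ 0) : (g (pt v)).rep i ≠ 0 := by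
  intro h0
  set w := (g (pt v)).rep with hw
  have hw0 : w ≠ 0 := (g (pt v)).rep_nonzero
  have hpw : pt w = g (pt v) := pt_rep _
  have hg' : g⁻¹ ∈ coll K := (coll K).inv_mem hg
  have hmem : w ∈ comapS g⁻¹ hg' (Zc i) := by
    rw [sum_single w]
    refine Submodule.sum_mem _ fun k _ => ?_
    by_cases hk : k = i
    · subst hk
      rw [h0, zero_smul]
      exact Submodule.zero_mem _
    · refine Submodule.smul_mem _ _ ?_
      rw [mem_comapS]
      right
      have h1 : g⁻¹ (pt (Pi.single k (1 : K))) = bp k := by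
        rw [Perm.inv_eq_iff_eq]
        exact (hfix k).symm
      rw [h1]
      exact rep_bp k i hk
  have h2 := (mem_comapS.1 hmem).resolve_left hw0
  have h3 : g⁻¹ (g (pt v)) = pt v := g.symm_apply_apply _
  rw [hpw, h3, on_pt (nz_of h)] at h2
  exact h h2

/-- the coordinate function of the line `i j` -/
noncomputable def Fc (g : Perm (P3 K)) (i j : Fin 4) (s : K) : K :=
  (g (pt (Pi.single i 1 + s • Pi.single j 1))).rep j /
    (g (pt (Pi.single i 1 + s • Pi.single j 1))).rep i

lemma ratio (hg : g ∈ coll K) (hfix : ∀ i, g (bp i) = bp i) {v : Fin 4 → K} {i j : Fin 4}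
    (hij : i ≠ j) (h : v i ≠ 0) :
    (g (pt v)).rep j = Fc g i j (v j / v i) * (g (pt v)).rep i := by
  set s := v j / v i with hs
  set e : Fin 4 → K := Pi.single i 1 + s • Pi.single j 1 with he
  have hei : e i ≠ 0 := by
    rw [he]
    simp [hij]
  have hmem : v ∈ comapS g hg (Cond i j (Fc g i j s)) := by
    have hv : v = v i • e + ∑ k, (if k = i ∨ k = j then 0 else v k) •
        (Pi.single k (1 : K) : Fin 4 → K) := by
      funext m
      simp only [Pi.add_apply, Finset.sum_apply, Pi.smul_apply, smul_eq_mul, he, Pi.single_apply,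
        mul_ite, mul_one, mul_zero, Finset.sum_ite_eq, Finset.mem_univ, if_true]
      by_cases hmi : m = i
      · subst hmi
        simp [hij]
      · by_cases hmj : m = j
        · subst hmj
          simp [hmi, hs]
          field_simp
        · simp [hmi, hmj]
    rw [hv]
    refine Submodule.add_mem _ (Submodule.smul_mem _ _ ?_) (Submodule.sum_mem _ fun k _ => ?_)
    · rw [mem_comapS]
      right
      show (g (pt e)).rep j = Fc g i j s * (g (pt e)).rep i
      rw [Fc, ← he, div_mul_cancel₀ _ (rep_ne hg hfix hei)]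
    · by_cases hk : k = i ∨ k = j
      · rw [if_pos hk, zero_smul]
        exact Submodule.zero_mem _
      · rw [if_neg hk]
        push Not at hk
        refine Submodule.smul_mem _ _ ?_
        rw [mem_comapS]
        right
        show (g (bp k)).rep j = Fc g i j s * (g (bp k)).rep i
        rw [hfix, rep_bp k j hk.2, rep_bp k i hk.1, mul_zero]
  exact (mem_comapS.1 hmem).resolve_left (nz_of h)

lemma Fc_zero (hfix : ∀ i, g (bp i) = bp i) {i j : Fin 4} (hij : i ≠ j) : Fc g i j 0 = 0 := by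
  have h1 : (Pi.single i 1 + (0 : K) • Pi.single j 1 : Fin 4 → K) = Pi.single i 1 := by simp
  unfold Fc
  rw [h1]
  show (g (bp i)).rep j / (g (bp i)).rep i = 0
  rw [hfix, rep_bp i j hij, zero_div]

lemma Fc_mul (hg : g ∈ coll K) (hfix : ∀ i, g (bp i) = bp i) {i j k : Fin 4}
    (hij : i ≠ j) (hik : i ≠ k) (hjk : j ≠ k) {r : K} (hr : r ≠ 0) (s : K) :
    Fc g i k (r * s) = Fc g i j r * Fc g j k s := by
  set v : Fin 4 → K := Pi.single i 1 + r • Pi.single j 1 + (r * s) • Pi.single k 1 with hv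
  have vi : v i = 1 := by rw [hv]; simp [hij, hik]
  have vj : v j = r := by rw [hv]; simp [hij.symm, hjk]
  have vk : v k = r * s := by rw [hv]; simp [hik.symm, hjk.symm]
  have h1 := ratio hg hfix (v := v) hij (by rw [vi]; exact one_ne_zero)
  have h2 := ratio hg hfix (v := v) hik (by rw [vi]; exact one_ne_zero)
  have h3 := ratio hg hfix (v := v) hjk (by rw [vj]; exact hr)
  have h4 := rep_ne hg hfix (v := v) (i := i) (by rw [vi]; exact one_ne_zero)
  rw [vi, vj, div_one] at h1
  rw [vi, vk, div_one] at h2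
  rw [vj, vk, mul_div_cancel_left₀ _ hr] at h3
  rw [h3, h1] at h2
  refine mul_right_cancel₀ h4 ?_
  rw [← h2]; ring

lemma Fc_one (hg : g ∈ coll K) (hfix : ∀ i, g (bp i) = bp i)
    (hone : g (pt fun _ => 1) = pt fun _ => 1) {i j : Fin 4} (hij : i ≠ j) : Fc g i j 1 = 1 := by
  have h1 := ratio hg hfix (v := fun _ => (1 : K)) hij one_ne_zero
  have h4 := rep_ne hg hfix (v := fun _ => (1 : K)) (i := i) one_ne_zero
  obtain ⟨c, hc, hr⟩ := rep_pt (one_ne (K := K))
  rw [hone, hr] at h1 h4
  simp only [Pi.smul_apply, smul_eq_mul, mul_one, div_one] at h1 h4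
  refine mul_right_cancel₀ h4 ?_
  rw [← h1, one_mul]

lemma Fc_first (hg : g ∈ coll K) (hfix : ∀ i, g (bp i) = bp i)
    (hone : g (pt fun _ => 1) = pt fun _ => 1) {i j k : Fin 4} (hij : i ≠ j) (hik : i ≠ k) (r : K) :
    Fc g i j r = Fc g i k r := by
  by_cases hjk : j = k
  · rw [hjk]
  by_cases hr : r = 0
  · rw [hr, Fc_zero hfix hij, Fc_zero hfix hik]
  have := Fc_mul hg hfix hij hik hjk hr 1
  rw [mul_one, Fc_one hg hfix hone hjk, mul_one] at this
  exact this.symm

lemma Fc_second (hg : g ∈ coll K) (hfix : ∀ i, g (bp i) = bp i)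
    (hone : g (pt fun _ => 1) = pt fun _ => 1) {i j k : Fin 4} (hik : i ≠ k) (hjk : j ≠ k) (s : K) :
    Fc g i k s = Fc g j k s := by
  by_cases hij : i = j
  · rw [hij]
  have := Fc_mul hg hfix hij hik hjk (one_ne_zero (α := K)) s
  rw [one_mul, Fc_one hg hfix hone hij, one_mul] at this
  exact this

lemma Fc_all (hg : g ∈ coll K) (hfix : ∀ i, g (bp i) = bp i)
    (hone : g (pt fun _ => 1) = pt fun _ => 1) {i j k l : Fin 4} (hij : i ≠ j) (hkl : k ≠ l)
    (s : K) : Fc g i j s = Fc g k l s := by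
  have hex : ∀ i k : Fin 4, ∃ m : Fin 4, i ≠ m ∧ k ≠ m := by decide
  obtain ⟨m, hmi, hmk⟩ := hex i k
  rw [Fc_first hg hfix hone hij hmi, Fc_second hg hfix hone hmi hmk,
    Fc_first hg hfix hone hmk hkl]

lemma pt_of_ratio {w v : Fin 4 → K} {σ : K → K} {i : Fin 4} (hw : w i ≠ 0) (hσ : σ (v i) ≠ 0)
    (h : ∀ j, w j * σ (v i) = σ (v j) * w i) : pt w = pt (fun k => σ (v k)) := by
  rw [pt_eq_iff (nz_of hw) (nz_of (i := i) hσ)]
  refine ⟨w i / σ (v i), ?_⟩
  funext j
  show w i / σ (v i) * σ (v j) = w j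
  rw [div_mul_eq_mul_div, div_eq_iff hσ, h j]
  ring

/-- the normalised case of the fundamental theorem -/
theorem ftpg_one (hg : g ∈ coll K) (hfix : ∀ i, g (bp i) = bp i)
    (hone : g (pt fun _ => 1) = pt fun _ => 1) :
    ∃ σ : K ≃+* K, ∀ v : Fin 4 → K, v ≠ 0 → g (pt v) = pt (fun k => σ (v k)) := by
  have h01 : (0 : Fin 4) ≠ 1 := by decide
  have h02 : (0 : Fin 4) ≠ 2 := by decide
  have h12 : (1 : Fin 4) ≠ 2 := by decide
  set σ : K → K := Fc g 0 1 with hσdef
  have hσ : ∀ {i j : Fin 4}, i ≠ j → ∀ s, Fc g i j s = σ s := fun hij s =>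
    Fc_all hg hfix hone hij h01 s
  have hσ1 : σ 1 = 1 := Fc_one hg hfix hone h01
  have hσ0 : σ 0 = 0 := Fc_zero hfix h01
  have hmul : ∀ r s, σ (r * s) = σ r * σ s := by
    intro r s
    by_cases hr : r = 0
    · rw [hr, zero_mul, hσ0, zero_mul]
    · rw [← hσ h02, Fc_mul hg hfix h01 h02 h12 hr s, hσ h01, hσ h12]
  have hne : ∀ r, r ≠ 0 → σ r ≠ 0 := by
    intro r hr h0
    have := hmul r r⁻¹
    rw [mul_inv_cancel₀ hr, hσ1, h0, zero_mul] at this
    exact one_ne_zero this
  have hform : ∀ v : Fin 4 → K, v ≠ 0 → g (pt v) = pt (fun k => σ (v k)) := by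
    intro v hv
    obtain ⟨i, hi⟩ := Function.ne_iff.1 hv
    have h1 := rep_ne hg hfix hi
    rw [← pt_rep (g (pt v))]
    refine pt_of_ratio (i := i) h1 (hne _ hi) fun j => ?_
    by_cases hij : i = j
    · subst hij
      ring
    · rw [ratio hg hfix hij hi, hσ hij, mul_right_comm, ← hmul, div_mul_cancel₀ _ hi]
  have hadd : ∀ s l, σ (s + l) = σ s + σ l := by
    intro s l
    have n1 : (![1, s, 0, 0] : Fin 4 → K) ≠ 0 := nz_of (i := 0) (by simp)
    have n2 : (![0, 1, 1, 0] : Fin 4 → K) ≠ 0 := nz_of (i := 1) (by simp)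
    have n3 : (![1, s + l, l, 0] : Fin 4 → K) ≠ 0 := nz_of (i := 0) (by simp)
    have hc : Col (pt ![1, s, 0, 0]) (pt ![0, 1, 1, 0]) (pt ![1, s + l, l, 0]) := by
      rw [col_pt n1 n2 n3]
      refine ⟨1, l, ?_⟩
      funext m
      fin_cases m <;> simp
    have hc' := hg _ _ _ hc
    rw [hform _ n1, hform _ n2, hform _ n3, col_pt] at hc'
    · obtain ⟨a, b, hab⟩ := hc'
      have e0 := congrFun hab 0
      have e1 := congrFun hab 1
      have e2 := congrFun hab 2
      simp [hσ0, hσ1] at e0 e1 e2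
      rw [← e1, e0, e2]
      ring
    · exact nz_of (i := 0) (by simp [hσ1])
    · exact nz_of (i := 1) (by simp [hσ1])
    · exact nz_of (i := 0) (by simp [hσ1])
  let σh : K →+* K :=
    { toFun := σ
      map_one' := hσ1
      map_mul' := hmul
      map_zero' := hσ0
      map_add' := hadd }
  have hbij : Function.Bijective σh := Finite.injective_iff_bijective.1 σh.injective
  exact ⟨RingEquiv.ofBijective σh hbij, fun v hv => hform v hv⟩

/-- the linear map permuting and scaling the coordinates: `v ↦ (c k * v (π k))` -/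
noncomputable def mono (π : Perm (Fin 4)) (c : Fin 4 → K) (hc : ∀ k, c k ≠ 0) :
    (Fin 4 → K) ≃ₗ[K] (Fin 4 → K) where
  toFun v k := c k * v (π k)
  map_add' u v := by funext k; simp [mul_add]
  map_smul' a v := by funext k; simp; ring
  invFun w k := (c (π.symm k))⁻¹ * w (π.symm k)
  left_inv v := by
    funext k
    simp [hc]
  right_inv w := by
    funext k
    simp [hc]

lemma mono_apply (π : Perm (Fin 4)) (c : Fin 4 → K) (hc : ∀ k, c k ≠ 0) (v : Fin 4 → K) :
    mono π c hc v = fun k => c k * v (π k) := rfl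

/-- A collineation which permutes the coordinate points is monomial semilinear. -/
theorem ftpg (hg : g ∈ coll K) (hfr : ∀ i, ∃ j, g (bp i) = bp j) :
    ∃ (π : Perm (Fin 4)) (c : Fin 4 → K) (σ : K ≃+* K), (∀ k, c k ≠ 0) ∧
      (∀ i, g (bp (π i)) = bp i) ∧
      ∀ v : Fin 4 → K, v ≠ 0 → g (pt v) = pt (fun k => c k * σ (v (π k))) := by
  choose ρ hρ using hfr
  have hρinj : Function.Injective ρ := by
    intro i j h
    apply bp_inj (K := K)
    apply g.injective
    rw [hρ, hρ, h]
  let π : Perm (Fin 4) := (Equiv.ofBijective ρ (Finite.injective_iff_bijective.1 hρinj)).symm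
  have hπ : ∀ i, ρ (π i) = i := fun i =>
    (Equiv.ofBijective ρ (Finite.injective_iff_bijective.1 hρinj)).apply_symm_apply i
  have hπ' : ∀ i, π (ρ i) = i := fun i =>
    (Equiv.ofBijective ρ (Finite.injective_iff_bijective.1 hρinj)).symm_apply_apply i
  have hπb : ∀ i, g (bp (π i)) = bp i := fun i => by rw [hρ, hπ]
  -- first normalisation
  set m1 := mono (K := K) π (fun _ => 1) (fun _ => one_ne_zero) with hm1
  set g1 : Perm (P3 K) := (lp m1)⁻¹ * g with hg1
  have hm1bp : ∀ i, lp m1 (bp i) = bp (ρ i) := by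
    intro i
    unfold bp
    rw [lp_pt _ (single_ne i), hm1, mono_apply]
    congr 1
    funext k
    by_cases hk : π k = i
    · have : k = ρ i := by rw [← hk, hπ]
      subst this
      simp [hk]
    · have : k ≠ ρ i := by
        rintro rfl
        exact hk (hπ' i)
      simp [hk, this]
  have hg1c : g1 ∈ coll K := (coll K).mul_mem ((coll K).inv_mem (lp_mem _)) hg
  have hg1f : ∀ i, g1 (bp i) = bp i := by
    intro i
    rw [hg1, Perm.mul_apply, hρ, Perm.inv_eq_iff_eq, hm1bp]
  -- second normalisation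
  set w := (g1 (pt fun _ => (1 : K))).rep with hw
  have hwk : ∀ k, w k ≠ 0 := fun k =>
    rep_ne hg1c hg1f (v := fun _ => (1 : K)) one_ne_zero
  set m2 := mono (K := K) 1 w hwk with hm2
  set g2 : Perm (P3 K) := (lp m2)⁻¹ * g1 with hg2
  have hg2c : g2 ∈ coll K := (coll K).mul_mem ((coll K).inv_mem (lp_mem _)) hg1c
  have hm2bp : ∀ i, lp m2 (bp i) = bp i := by
    intro i
    unfold bp
    rw [lp_pt _ (single_ne i), hm2, mono_apply]
    rw [pt_eq_iff (nz_of (i := i) (by simp [hwk])) (single_ne i)]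
    refine ⟨w i, ?_⟩
    funext k
    by_cases hk : k = i
    · subst hk; simp
    · simp [hk]
  have hg2f : ∀ i, g2 (bp i) = bp i := by
    intro i
    rw [hg2, Perm.mul_apply, hg1f, Perm.inv_eq_iff_eq, hm2bp]
  have hg2o : g2 (pt fun _ => 1) = pt fun _ => 1 := by
    rw [hg2, Perm.mul_apply, Perm.inv_eq_iff_eq, lp_pt _ one_ne, hm2, mono_apply,
      ← pt_rep (g1 (pt fun _ => 1)), ← hw]
    congr 1
    funext k
    simp
  obtain ⟨σ, hσ⟩ := ftpg_one hg2c hg2f hg2o
  refine ⟨π, fun k => w (π k), σ, fun k => hwk _, hπb, fun v hv => ?_⟩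
  have h1 : g = lp m1 * (lp m2 * g2) := by
    rw [hg2, mul_inv_cancel_left, hg1, mul_inv_cancel_left]
  have hσv : (fun k => σ (v k)) ≠ 0 := by
    obtain ⟨i, hi⟩ := Function.ne_iff.1 hv
    exact nz_of (i := i) (by simpa using hi)
  rw [h1, Perm.mul_apply, Perm.mul_apply, hσ v hv, lp_pt _ hσv, hm2, mono_apply, lp_pt, hm1,
    mono_apply]
  · congr 1
    funext k
    simp
  · obtain ⟨i, hi⟩ := Function.ne_iff.1 hσv
    exact nz_of (i := i) (mul_ne_zero (hwk i) (by simpa using hi))

end

end Pool.Agent.Helper783_PC
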