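import Pool.Agent.Helper783_PC.Proj

/-!
Groups containing the group of all collineations properly; maximality.
-/

set_option autoImplicit false

namespace Pool.Agent.Helper783_PC

open Equiv Equiv.Perm

section

variable {K : Type} [Field K] [Finite K]

lemma pt_rep (P : P3 K) : pt P.rep = P := by
  rw [← pt_mk _ P.rep_nonzero, P.mk_rep]

lemma card_line (P Q : P3 K) : (line P Q).card ≤ Nat.card K + 1 := by
  classical
  have : Fintype K := Fintype.ofFinite K
  let φ : Option K → P3 K := fun o => o.elim (pt Q.rep) (fun s => pt (P.rep + s • Q.rep))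
  have h1 : line P Q ⊆ Finset.univ.image φ := by
    intro R hR
    rw [mem_line] at hR
    obtain ⟨w, hw, rfl⟩ := exists_pt R
    rw [← pt_rep P, ← pt_rep Q, col_pt P.rep_nonzero Q.rep_nonzero hw] at hR
    obtain ⟨a, b, rfl⟩ := hR
    rw [Finset.mem_image]
    by_cases ha : a = 0
    · subst ha
      rw [zero_smul, zero_add] at hw ⊢
      have hb : b ≠ 0 := by
        rintro rfl
        exact hw (zero_smul _ _)
      exact ⟨none, Finset.mem_univ _, (pt_smul hb _).symm⟩
    · refine ⟨some (a⁻¹ * b), Finset.mem_univ _, ?_⟩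
      show pt (P.rep + (a⁻¹ * b) • Q.rep) = _
      rw [← pt_smul ha, smul_add, smul_smul, mul_inv_cancel_left₀ ha]
  have h2 := (Finset.card_le_card h1).trans Finset.card_image_le
  rwa [Finset.card_univ, Fintype.card_option, ← Nat.card_eq_fintype_card] at h2

lemma card_P3 : Fintype.card (P3 K) = 1 + Nat.card K + Nat.card K ^ 2 + Nat.card K ^ 3 := by
  have h : Module.finrank K (Fin 4 → K) = 4 := by simp
  rw [← Nat.card_eq_fintype_card, Projectivization.card_of_finrank K (Fin 4 → K) h]
  simp [Finset.sum_range_succ]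

lemma two_le_card : 2 ≤ Nat.card K := Finite.one_lt_card

lemma exists_third {P Q : P3 K} (h : P ≠ Q) : ∃ R ∈ line P Q, R ≠ P ∧ R ≠ Q := by
  have hne : P.rep + Q.rep ≠ 0 := by
    intro h0
    apply h
    rw [← pt_rep P, ← pt_rep Q, pt_eq_iff P.rep_nonzero Q.rep_nonzero]
    exact ⟨-1, by rw [neg_smul, one_smul]; exact (eq_neg_of_add_eq_zero_left h0).symm⟩
  refine ⟨pt (P.rep + Q.rep), ?_, ?_, ?_⟩
  · rw [mem_line]
    have h1 := (col_pt P.rep_nonzero Q.rep_nonzero hne).2 ⟨1, 1, by simp⟩
    rwa [pt_rep, pt_rep] at h1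
  · intro h1
    apply h
    replace h1 : pt (P.rep + Q.rep) = pt P.rep := by rw [h1, pt_rep]
    rw [pt_eq_iff hne P.rep_nonzero] at h1
    obtain ⟨c, hc⟩ := h1
    rw [← pt_rep P, ← pt_rep Q]
    symm
    rw [pt_eq_iff Q.rep_nonzero P.rep_nonzero]
    exact ⟨c - 1, by rw [sub_smul, one_smul, hc]; abel⟩
  · intro h1
    apply h
    replace h1 : pt (P.rep + Q.rep) = pt Q.rep := by rw [h1, pt_rep]
    rw [pt_eq_iff hne Q.rep_nonzero] at h1
    obtain ⟨c, hc⟩ := h1
    rw [← pt_rep P, ← pt_rep Q]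
    rw [pt_eq_iff P.rep_nonzero Q.rep_nonzero]
    exact ⟨c - 1, by rw [sub_smul, one_smul, hc]; abel⟩

/-- basis points -/
noncomputable def bp (i : Fin 4) : P3 K := pt (Pi.single i (1 : K))

omit [Finite K] in
lemma single_ne (i : Fin 4) : (Pi.single i (1 : K) : Fin 4 → K) ≠ 0 := by
  intro h
  have := congrFun h i
  simp at this

omit [Finite K] in
lemma bp_inj {i j : Fin 4} (h : bp (K := K) i = bp j) : i = j := by
  by_contra hij
  rw [bp, bp, pt_eq_iff (single_ne i) (single_ne j)] at h
  obtain ⟨c, hc⟩ := h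
  have := congrFun hc i
  simp [hij] at this

theorem geo (G : Subgroup (Perm (P3 K))) (hG : coll K < G) :
    (∀ a b c a' b' c' : P3 K, a ≠ b → a ≠ c → b ≠ c → a' ≠ b' → a' ≠ c' → b' ≠ c' →
      ∃ g ∈ G, g a = a' ∧ g b = b' ∧ g c = c') ∧
    ∀ a b c : P3 K, a ≠ b → a ≠ c → b ≠ c → Fam G {a, b, c} := by
  classical
  have h01 : bp (K := K) 0 ≠ bp 1 := fun h => absurd (bp_inj h) (by decide)
  have h02 : bp (K := K) 0 ≠ bp 2 := fun h => absurd (bp_inj h) (by decide)
  have h12 : bp (K := K) 1 ≠ bp 2 := fun h => absurd (bp_inj h) (by decide)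
  have hq := two_le_card (K := K)
  refine four_trans (coll K) G hG.le line (Nat.card K) (fun a b => mem_line.2 (col_left a b))
    (fun a b => mem_line.2 (col_right a b)) card_line ⟨bp 0, bp 1, h01, exists_third h01⟩ ?_
    (fun a b _ => line_fam) two_trans ?_ ?_ ?_
  · rw [card_P3]
    nlinarith [Nat.pos_of_ne_zero (by omega : Nat.card K ≠ 0), pow_pos (by omega : 0 < Nat.card K) 3,
      pow_pos (by omega : 0 < Nat.card K) 2]
  · rintro a b Y hab ha hb hinv ⟨c, hc, hca, hcb⟩
    have hli : LinearIndependent K ![a.rep, b.rep] :=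
      Projectivization.linearIndependent_pair_iff_ne.2 hab
    have h := large ![a.rep, b.rep] hli Y {a, b} ?_ ?_ ?_ ?_ c hc ?_
    · rw [Finset.card_pair hab] at h
      omega
    · intro t ht
      rw [Finset.mem_insert, Finset.mem_singleton] at ht
      rcases ht with rfl | rfl
      · exact ⟨0, (pt_rep _).symm⟩
      · exact ⟨1, (pt_rep _).symm⟩
    · intro i
      fin_cases i
      · simp [pt_rep]
      · simp [pt_rep]
    · intro t ht
      rw [Finset.mem_insert, Finset.mem_singleton] at ht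
      rcases ht with rfl | rfl
      · exact ha
      · exact hb
    · intro g hg hfix
      refine hinv g hg ?_ ?_
      · have := hfix 0
        simpa [pt_rep] using this
      · have := hfix 1
        simpa [pt_rep] using this
    · simp [hca, hcb]
  · refine ⟨bp 0, bp 1, bp 2, h01, h02, h12, ?_⟩
    rintro Y h0 h1 h2 hinv ⟨e, he, he0, he1, he2⟩
    have hli : LinearIndependent K (fun i : Fin 3 => (Pi.single (Fin.castSucc i) (1 : K) : Fin 4 → K)) := by
      have hb := (Pi.basisFun K (Fin 4)).linearIndependent.comp (Fin.castSucc : Fin 3 → Fin 4)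
        (Fin.castSucc_injective 3)
      convert hb using 1
      funext i
      simp
    have h := large (fun i : Fin 3 => (Pi.single (Fin.castSucc i) (1 : K) : Fin 4 → K)) hli Y
      {bp 0, bp 1, bp 2} ?_ ?_ ?_ ?_ e he ?_
    · rw [Finset.card_eq_three.2 ⟨bp 0, bp 1, bp 2, h01, h02, h12, rfl⟩] at h
      omega
    · intro t ht
      simp only [Finset.mem_insert, Finset.mem_singleton] at ht
      rcases ht with rfl | rfl | rfl
      · exact ⟨0, rfl⟩
      · exact ⟨1, rfl⟩
      · exact ⟨2, rfl⟩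
    · intro i
      simp only [Finset.mem_insert, Finset.mem_singleton]
      fin_cases i
      · left; rfl
      · right; left; rfl
      · right; right; rfl
    · intro t ht
      simp only [Finset.mem_insert, Finset.mem_singleton] at ht
      rcases ht with rfl | rfl | rfl
      · exact h0
      · exact h1
      · exact h2
    · intro g hg hfix
      exact hinv g hg (hfix 0) (hfix 1) (hfix 2)
    · simp [he0, he1, he2]
  · obtain ⟨g, hg, hgn⟩ := SetLike.exists_of_lt hG
    refine ⟨g, hg, ?_⟩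
    have hgn' : ¬ Pres g := hgn
    unfold Pres at hgn'
    push Not at hgn'
    obtain ⟨P, Q, R, h1, h2⟩ := hgn'
    refine ⟨P, Q, R, ?_, mem_line.2 h1, fun h => h2 (mem_line.1 h)⟩
    rintro rfl
    rw [col_self h1] at h2
    exact h2 (col_left _ _)

/-- maximality of the group of collineations -/
theorem coatom (ℓ : ℕ) (hℓ : ℓ.Prime) (hℓ3 : 3 < ℓ)
    (hn : 1 + Nat.card K + Nat.card K ^ 2 + Nat.card K ^ 3 = ℓ + 3) (hne : coll K ≠ ⊤)
    (o : Perm (P3 K)) (ho : o ∈ coll K) (hs : Perm.sign o = -1) : IsCoatom (coll K) := by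
  refine ⟨hne, fun G hG => ?_⟩
  obtain ⟨h3, h4⟩ := geo G hG
  refine eq_top_of_alt_le G ?_ o (hG.le ho) hs
  refine alt_le G ℓ hℓ hℓ3 (by rw [card_P3, hn]) h3 ?_
  intro a b c u v hab hac hbc hu hv
  exact h4 a b c hab hac hbc u v hu hv

end

end Pool.Agent.Helper783_PC
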