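import Mathlib

/-!
A group of permutations of `ℓ + 3` points, `ℓ > 3` prime, which is 4-transitive, contains the alternating group.
-/

set_option autoImplicit false

namespace Pool.Agent.Helper783_PC

open Equiv Equiv.Perm
open scoped Pointwise

section

variable {Ω : Type} [Fintype Ω] [DecidableEq Ω]

omit [Fintype Ω] [DecidableEq Ω] in
theorem aai (f : Perm Ω) (x : Ω) : f (f⁻¹ x) = x := f.apply_symm_apply x

/-- pointwise stabilizer in `G` of `Δ` -/
def ptw (G : Subgroup (Perm Ω)) (Δ : Finset Ω) : Subgroup (Perm Ω) where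
  carrier := {h | h ∈ G ∧ ∀ x ∈ Δ, h x = x}
  one_mem' := ⟨G.one_mem, fun _ _ => rfl⟩
  mul_mem' := by
    rintro g h ⟨hg, hg'⟩ ⟨hh, hh'⟩
    exact ⟨G.mul_mem hg hh, fun x hx => by rw [Perm.mul_apply, hh' x hx, hg' x hx]⟩
  inv_mem' := by
    rintro g ⟨hg, hg'⟩
    exact ⟨G.inv_mem hg, fun x hx => by rw [Perm.inv_eq_iff_eq, hg' x hx]⟩

/-- setwise stabilizer in `G` of `Δ` -/
def stw (G : Subgroup (Perm Ω)) (Δ : Finset Ω) : Subgroup (Perm Ω) where
  carrier := {h | h ∈ G ∧ ∀ x, h x ∈ Δ ↔ x ∈ Δ}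
  one_mem' := ⟨G.one_mem, fun _ => Iff.rfl⟩
  mul_mem' := by
    rintro g h ⟨hg, hg'⟩ ⟨hh, hh'⟩
    exact ⟨G.mul_mem hg hh, fun x => by rw [Perm.mul_apply, hg', hh']⟩
  inv_mem' := by
    rintro g ⟨hg, hg'⟩
    exact ⟨G.inv_mem hg, fun x => by rw [← hg' (g⁻¹ x), aai]⟩

theorem ptw_le_stw (G : Subgroup (Perm Ω)) (Δ : Finset Ω) : ptw G Δ ≤ stw G Δ := by
  rintro h ⟨hg, hx⟩
  refine ⟨hg, fun x => ⟨fun hxx => ?_, fun hxx => ?_⟩⟩
  · have := hx (h x) hxx
    have := h.injective this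
    rwa [← this]
  · rw [hx x hxx]; exact hxx

theorem stw_of (G : Subgroup (Perm Ω)) (Δ : Finset Ω) (h : Perm Ω) (hG : h ∈ G)
    (hx : ∀ x ∈ Δ, h x ∈ Δ) : h ∈ stw G Δ := by
  refine ⟨hG, fun x => ⟨fun hxx => ?_, hx x⟩⟩
  have himg : Δ.image h = Δ := by
    apply Finset.eq_of_subset_of_card_le
    · intro y hy
      obtain ⟨z, hz, rfl⟩ := Finset.mem_image.1 hy
      exact hx z hz
    · rw [Finset.card_image_of_injective _ h.injective]
  rw [← himg] at hxx
  obtain ⟨z, hz, hzx⟩ := Finset.mem_image.1 hxx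
  rwa [← h.injective hzx]

/-- in the situation of the theorem there is an element `g` of order `ℓ` of the pointwise stabilizer of `Δ`, and every
action on `Δ` of the setwise stabilizer is realized by an element normalizing `⟨g⟩` -/
theorem frattini (G : Subgroup (Perm Ω)) (Δ : Finset Ω) (ℓ : ℕ) (hℓ : ℓ.Prime)
    (hn : Fintype.card Ω = ℓ + Δ.card)
    (h4 : ∀ u v : Ω, u ∉ Δ → v ∉ Δ → ∃ g ∈ ptw G Δ, g u = v) :
    ∃ g ∈ ptw G Δ, orderOf g = ℓ ∧ ∀ h ∈ stw G Δ, ∃ n ∈ stw G Δ, (∀ x ∈ Δ, n x = h x) ∧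
      n * g * n⁻¹ ∈ Subgroup.zpowers g := by
  classical
  have : Fact ℓ.Prime := ⟨hℓ⟩
  set K := ptw G Δ with hK
  set M := stw G Δ with hM
  have hcompl : Fintype.card {x // x ∉ Δ} = ℓ := by
    rw [Fintype.card_subtype_compl, Fintype.card_coe, hn]; simp
  -- `ℓ ∣ card K`
  have hdvd : ℓ ∣ Nat.card K := by
    have : 0 < Fintype.card {x // x ∉ Δ} := by rw [hcompl]; exact hℓ.pos
    obtain ⟨⟨u, hu⟩⟩ := Fintype.card_pos_iff.1 this
    have horb : MulAction.orbit K u = {x | x ∉ Δ} := by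
      ext v
      constructor
      · rintro ⟨g, rfl⟩
        show (g : Perm Ω) u ∉ Δ
        rw [(ptw_le_stw G Δ g.2).2]
        exact hu
      · intro hv
        obtain ⟨g, hg, hgu⟩ := h4 u v hu hv
        exact ⟨⟨g, hg⟩, hgu⟩
    have h1 := MulAction.card_orbit_mul_card_stabilizer_eq_card_group K u
    have h2 : Nat.card (MulAction.orbit K u) = ℓ := by
      rw [horb, ← hcompl, Nat.card_eq_fintype_card]
      rfl
    rw [← Nat.card_eq_fintype_card, ← Nat.card_eq_fintype_card, ← Nat.card_eq_fintype_card, h2] at h1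
    exact ⟨_, h1.symm⟩
  have hKfac : Nat.card K ∣ ℓ.factorial := by
    have h1 : K ≤ (Perm.ofSubtype : Perm {x // x ∉ Δ} →* Perm Ω).range := by
      intro g hg
      rw [MonoidHom.mem_range]
      have hs : ∀ x, (g x ∉ Δ) ↔ (x ∉ Δ) := fun x => not_congr ((ptw_le_stw G Δ hg).2 x)
      refine ⟨g.subtypePerm hs, ?_⟩
      apply Perm.ofSubtype_subtypePerm
      intro x hx hxx
      exact hx (hg.2 x hxx)
    have h2 := Subgroup.card_dvd_of_le h1
    have h3 : Nat.card (Perm.ofSubtype : Perm {x // x ∉ Δ} →* Perm Ω).range = ℓ.factorial := by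
      rw [← Nat.card_congr (MonoidHom.ofInjective (Perm.ofSubtype_injective (p := fun x => x ∉ Δ))).toEquiv,
        Nat.card_perm, Nat.card_eq_fintype_card, hcompl]
    rwa [h3] at h2
  have hsq : ¬ ℓ ^ 2 ∣ Nat.card K := by
    intro h
    have h1 := h.trans hKfac
    obtain ⟨k, rfl⟩ : ∃ k, ℓ = k + 1 := ⟨ℓ - 1, by have := hℓ.pos; omega⟩
    rw [Nat.factorial_succ, pow_two] at h1
    have h2 := Nat.dvd_of_mul_dvd_mul_left hℓ.pos h1
    rw [hℓ.dvd_factorial] at h2
    omega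
  set N : Subgroup M := K.subgroupOf M with hN
  have hnorm : N.Normal := by
    constructor
    rintro ⟨n, hnM⟩ hnN ⟨m, hm⟩
    rw [hN, Subgroup.mem_subgroupOf] at hnN ⊢
    refine ⟨G.mul_mem (G.mul_mem hm.1 hnN.1) (G.inv_mem hm.1), fun x hx => ?_⟩
    have h1 : m⁻¹ x ∈ Δ := by
      rw [← hm.2 (m⁻¹ x), aai]
      exact hx
    show m (n (m⁻¹ x)) = x
    rw [hnN.2 _ h1, aai]
  have hcardN : Nat.card N = Nat.card K :=
    Nat.card_congr (Subgroup.subgroupOfEquivOfLe (ptw_le_stw G Δ)).toEquiv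
  obtain ⟨P⟩ : Nonempty (Sylow ℓ N) := inferInstance
  have hPcard : Nat.card P = ℓ := by
    rw [P.card_eq_multiplicity, hcardN]
    have h0 : Nat.card K ≠ 0 := Nat.card_pos.ne'
    have h1 : 1 ≤ (Nat.card K).factorization ℓ := by
      rw [← hℓ.pow_dvd_iff_le_factorization h0, pow_one]; exact hdvd
    have h2 : ¬ 2 ≤ (Nat.card K).factorization ℓ := by
      rw [← hℓ.pow_dvd_iff_le_factorization h0]; exact hsq
    have : (Nat.card K).factorization ℓ = 1 := by omega
    rw [this, pow_one]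
  obtain ⟨g, hg⟩ : ∃ g : P, g ≠ 1 := by
    have : Nontrivial P := by
      rw [← Finite.one_lt_card_iff_nontrivial, hPcard]
      exact hℓ.one_lt
    exact exists_ne 1
  have hgtop := zpowers_eq_top_of_prime_card hPcard hg
  set g0 : Perm Ω := (((g : N) : M) : Perm Ω) with hg0
  have hg0K : g0 ∈ K := (g : N).2
  refine ⟨g0, hg0K, ?_, ?_⟩
  · have h1 : orderOf g0 = orderOf g := by
      rw [hg0, Subgroup.orderOf_coe, Subgroup.orderOf_coe]
      exact Subgroup.orderOf_coe g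
    rw [h1]
    have h2 : g ^ (Nat.card P) = 1 := pow_card_eq_one'
    exact orderOf_eq_prime ((congrArg (fun k => g ^ k) hPcard).symm.trans h2) hg
  · intro h hh
    have htop := Sylow.normalizer_sup_eq_top P
    have hmem : (⟨h, hh⟩ : M) ∈ Subgroup.normalizer (P.map N.subtype) ⊔ N := by
      rw [htop]; trivial
    have hmem' : (⟨h, hh⟩ : M) ∈ (((Subgroup.normalizer (P.map N.subtype) : Subgroup M) : Set M) *
        (N : Set M)) := by
      rw [← Subgroup.mul_normal]; exact hmem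
    obtain ⟨n, hnn, k, hk, hnk⟩ := Set.mem_mul.1 hmem'
    refine ⟨n, n.2, ?_, ?_⟩
    · intro x hx
      have hk' : (k : Perm Ω) ∈ K := hk
      have : h = (n : Perm Ω) * (k : Perm Ω) := congrArg Subtype.val hnk.symm
      rw [this, Perm.mul_apply, hk'.2 x hx]
    · have hgm : ((g : N) : M) ∈ (P : Subgroup N).map N.subtype := ⟨(g : N), g.2, rfl⟩
      have h2 := (Subgroup.mem_normalizer_iff.1 hnn ((g : N) : M)).1 hgm
      obtain ⟨y, hy, hyn⟩ := h2
      have hyz : (⟨y, hy⟩ : P) ∈ Subgroup.zpowers g := by rw [hgtop]; trivial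
      obtain ⟨i, hi⟩ := hyz
      refine ⟨i, ?_⟩
      have h3 : ((n : M) : Perm Ω) * g0 * ((n : M) : Perm Ω)⁻¹ = (((y : N) : M) : Perm Ω) := by
        have := congrArg (fun z : M => (z : Perm Ω)) hyn
        simpa using this.symm
      rw [h3]
      have h4 := congrArg (fun z : P => (((z : N) : M) : Perm Ω)) hi
      simpa using h4

theorem alt_le (G : Subgroup (Perm Ω)) (ℓ : ℕ)
    (hℓ : ℓ.Prime) (hℓ3 : 3 < ℓ) (hn : Fintype.card Ω = ℓ + 3)
    (h3 : ∀ a b c a' b' c' : Ω, a ≠ b → a ≠ c → b ≠ c → a' ≠ b' → a' ≠ c' → b' ≠ c' →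
      ∃ g ∈ G, g a = a' ∧ g b = b' ∧ g c = c')
    (h4 : ∀ a b c u v : Ω, a ≠ b → a ≠ c → b ≠ c → u ∉ ({a, b, c} : Finset Ω) →
      v ∉ ({a, b, c} : Finset Ω) → ∃ g ∈ ptw G {a, b, c}, g u = v) :
    alternatingGroup Ω ≤ G := by
  classical
  obtain ⟨a, b, c, hab, hac, hbc⟩ := Fintype.two_lt_card_iff.1 (by rw [hn]; omega : 2 < Fintype.card Ω)
  set Δ : Finset Ω := {a, b, c} with hΔ
  have hΔc : Δ.card = 3 := by
    rw [hΔ, Finset.card_eq_three]
    exact ⟨a, b, c, hab, hac, hbc, rfl⟩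
  obtain ⟨g, hgK, hgo, hfr⟩ := frattini G Δ ℓ hℓ (by rw [hn, hΔc]) (fun u v hu hv => h4 a b c u v hab hac hbc hu hv)
  have ha : a ∈ Δ := by simp [hΔ]
  have hb : b ∈ Δ := by simp [hΔ]
  have hc : c ∈ Δ := by simp [hΔ]
  -- the two elements
  obtain ⟨u0, hu0, hu0a, hu0b, hu0c⟩ := h3 a b c b c a hab hac hbc hbc hab.symm hac.symm
  have hu0M : u0 ∈ stw G Δ := by
    apply stw_of G Δ u0 hu0
    intro x hx
    simp only [hΔ, Finset.mem_insert, Finset.mem_singleton] at hx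
    rcases hx with rfl | rfl | rfl
    · rw [hu0a]; exact hb
    · rw [hu0b]; exact hc
    · rw [hu0c]; exact ha
  obtain ⟨v0, hv0, hv0a, hv0b, hv0c⟩ := h3 a b c b a c hab hac hbc hab.symm hbc hac
  have hv0M : v0 ∈ stw G Δ := by
    apply stw_of G Δ v0 hv0
    intro x hx
    simp only [hΔ, Finset.mem_insert, Finset.mem_singleton] at hx
    rcases hx with rfl | rfl | rfl
    · rw [hv0a]; exact hb
    · rw [hv0b]; exact ha
    · rw [hv0c]; exact hc
  obtain ⟨u, huM, hux, ⟨i, hi⟩⟩ := hfr u0 hu0M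
  obtain ⟨v, hvM, hvx, ⟨j, hj⟩⟩ := hfr v0 hv0M
  have hua : u a = b := by rw [hux a ha, hu0a]
  have hub : u b = c := by rw [hux b hb, hu0b]
  have huc : u c = a := by rw [hux c hc, hu0c]
  have hva : v a = b := by rw [hvx a ha, hv0a]
  have hvb : v b = a := by rw [hvx b hb, hv0b]
  have hvc : v c = c := by rw [hvx c hc, hv0c]
  have hi' : u * g * u⁻¹ = g ^ i := hi.symm
  have hj' : v * g * v⁻¹ = g ^ j := hj.symm
  set w : Perm Ω := (v * u)⁻¹ * (u * v) with hw
  have hwM : w ∈ stw G Δ := (stw G Δ).mul_mem ((stw G Δ).inv_mem ((stw G Δ).mul_mem hvM huM))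
    ((stw G Δ).mul_mem huM hvM)
  have hcomm : w * g = g * w := by
    have e1 : (u * v) * g * (u * v)⁻¹ = g ^ (i * j) := by
      have : (u * v) * g * (u * v)⁻¹ = u * (v * g * v⁻¹) * u⁻¹ := by group
      rw [this, hj', ← conj_zpow, hi', ← zpow_mul]
    have e2 : (v * u) * g * (v * u)⁻¹ = g ^ (i * j) := by
      have : (v * u) * g * (v * u)⁻¹ = v * (u * g * u⁻¹) * v⁻¹ := by group
      rw [this, hi', ← conj_zpow, hj', ← zpow_mul, mul_comm]
    have e3 : (u * v) * g * (u * v)⁻¹ = (v * u) * g * (v * u)⁻¹ := e1.trans e2.symm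
    have e4 : (v * u)⁻¹ * ((u * v) * g * (u * v)⁻¹) * (u * v) =
        (v * u)⁻¹ * ((v * u) * g * (v * u)⁻¹) * (u * v) := by rw [e3]
    rw [hw]
    calc (v * u)⁻¹ * (u * v) * g = (v * u)⁻¹ * ((u * v) * g * (u * v)⁻¹) * (u * v) := by group
      _ = (v * u)⁻¹ * ((v * u) * g * (v * u)⁻¹) * (u * v) := e4
      _ = g * ((v * u)⁻¹ * (u * v)) := by group
  have hwa : w a = b := by
    show (v * u)⁻¹ (u (v a)) = b
    rw [hva, hub, Perm.inv_eq_iff_eq]
    show c = v (u b)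
    rw [hub, hvc]
  have hwb : w b = c := by
    show (v * u)⁻¹ (u (v b)) = c
    rw [hvb, hua, Perm.inv_eq_iff_eq]
    show b = v (u c)
    rw [huc, hva]
  have hwc : w c = a := by
    show (v * u)⁻¹ (u (v c)) = a
    rw [hvc, huc, Perm.inv_eq_iff_eq]
    show a = v (u a)
    rw [hua, hvb]
  -- `g` is a cycle on the complement
  have hcyc : g.IsCycle := isCycle_of_prime_order' (by rw [hgo]; exact hℓ) (by rw [hgo, hn]; omega)
  have hsupp : g.support = Δᶜ := by
    apply Finset.eq_of_subset_of_card_le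
    · intro x hx
      rw [Finset.mem_compl]
      intro hxΔ
      exact (Perm.mem_support.1 hx) (hgK.2 x hxΔ)
    · rw [Finset.card_compl, hΔc, hn, ← hcyc.orderOf, hgo]; omega
  obtain ⟨z0, hz0, -⟩ := id hcyc
  have hz0' : z0 ∉ Δ := by
    have : z0 ∈ g.support := Perm.mem_support.2 hz0
    rw [hsupp, Finset.mem_compl] at this
    exact this
  have hwz0 : g (w z0) ≠ w z0 := by
    have : w z0 ∉ Δ := by rw [hwM.2]; exact hz0'
    rw [← Finset.mem_compl, ← hsupp] at this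
    exact Perm.mem_support.1 this
  obtain ⟨m, hm⟩ := hcyc.exists_zpow_eq hz0 hwz0
  have hcommz : ∀ k : ℤ, w * g ^ k = g ^ k * w := fun k =>
    (Commute.zpow_right (show Commute w g from hcomm) k)
  have hout : ∀ z, z ∉ Δ → w z = (g ^ m) z := by
    intro z hz
    rw [← Finset.mem_compl, ← hsupp] at hz
    obtain ⟨k, rfl⟩ := hcyc.exists_zpow_eq hz0 (Perm.mem_support.1 hz)
    have h1 : w ((g ^ k) z0) = (g ^ k) (w z0) := by
      have := congrArg (fun f : Perm Ω => f z0) (hcommz k)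
      simpa using this
    rw [h1, ← hm, ← Perm.mul_apply, ← Perm.mul_apply, ← zpow_add, ← zpow_add, add_comm]
  have hfix : ∀ x ∈ Δ, ∀ k : ℤ, (g ^ k) x = x := fun x hx k =>
    Perm.zpow_apply_eq_self_of_apply_eq_self (hgK.2 x hx) k
  have hgG : g ∈ G := hgK.1
  have hthree : g ^ (-m) * w = swap a c * swap a b := by
    ext x
    simp only [Perm.mul_apply]
    by_cases hxΔ : x ∈ Δ
    · have hxΔ' := hxΔ
      simp only [hΔ, Finset.mem_insert, Finset.mem_singleton] at hxΔ'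
      rcases hxΔ' with rfl | rfl | rfl
      · rw [hwa, hfix b hb, swap_apply_left, swap_apply_of_ne_of_ne hab.symm hbc]
      · rw [hwb, hfix c hc, swap_apply_right, swap_apply_left]
      · rw [hwc, hfix a ha, swap_apply_of_ne_of_ne hac.symm hbc.symm, swap_apply_right]
    · rw [hout x hxΔ, ← Perm.mul_apply, ← zpow_add, neg_add_cancel, zpow_zero, Perm.one_apply]
      have h1 : x ≠ a := fun h => hxΔ (h ▸ ha)
      have h2 : x ≠ b := fun h => hxΔ (h ▸ hb)
      have h3 : x ≠ c := fun h => hxΔ (h ▸ hc)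
      rw [swap_apply_of_ne_of_ne h1 h2, swap_apply_of_ne_of_ne h1 h3]
  have h3c : IsThreeCycle (g ^ (-m) * w) := by
    rw [hthree]
    exact isThreeCycle_swap_mul_swap_same hac hab hbc.symm
  have h3G : g ^ (-m) * w ∈ G := G.mul_mem (G.zpow_mem hgG _) hwM.1
  -- primitivity
  have h2t : MulAction.IsMultiplyPretransitive G Ω 2 := by
    rw [MulAction.is_two_pretransitive_iff]
    intro x y x' y' hxy hxy'
    have hex : ∀ x y : Ω, ∃ z, x ≠ z ∧ y ≠ z := by
      intro x y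
      have hlt : ({x, y} : Finset Ω).card < Fintype.card Ω := by
        refine lt_of_le_of_lt Finset.card_le_two ?_
        rw [hn]; omega
      obtain ⟨z, hz⟩ := Finset.exists_mem_notMem_of_card_lt_card (by rwa [← Finset.card_univ] at hlt)
      have := hz.2
      simp only [Finset.mem_insert, Finset.mem_singleton, not_or] at this
      exact ⟨z, Ne.symm this.1, Ne.symm this.2⟩
    obtain ⟨z, h1, h2⟩ := hex x y
    obtain ⟨z', h1', h2'⟩ := hex x' y'
    obtain ⟨k, hk, e1, e2, -⟩ := h3 x y z x' y' z' hxy h1 h2 hxy' h1' h2'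
    exact ⟨⟨k, hk⟩, e1, e2⟩
  have hprim : MulAction.IsPreprimitive G Ω := MulAction.isPreprimitive_of_is_two_pretransitive h2t
  exact alternatingGroup_le_of_isPreprimitive_of_isThreeCycle_mem hprim h3c h3G

/-- … and with an odd permutation it is everything -/
theorem eq_top_of_alt_le (G : Subgroup (Perm Ω)) (h : alternatingGroup Ω ≤ G) (o : Perm Ω) (ho : o ∈ G)
    (hs : Perm.sign o = -1) : G = ⊤ := by
  rw [eq_top_iff]
  intro g _
  by_cases hg : Perm.sign g = 1
  · exact h (mem_alternatingGroup.2 hg)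
  · have hg' : Perm.sign g = -1 := (Int.units_eq_one_or _).resolve_left hg
    have h1 : g * o ∈ G := by
      apply h
      rw [mem_alternatingGroup, Perm.sign_mul, hg', hs]
      rfl
    have := G.mul_mem h1 (G.inv_mem ho)
    rwa [mul_inv_cancel_right] at this

end

end Pool.Agent.Helper783_PC
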