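import Pool.Agent.Helper783_PC.Jordan

/-!
A group properly containing a group with a suitable geometry of lines is 4-transitive.
-/

set_option autoImplicit false

namespace Pool.Agent.Helper783_PC

open Equiv Equiv.Perm

section

variable {Ω : Type} [Fintype Ω] [DecidableEq Ω]

/-- the pointwise stabilizer of `Γ` in `G` is transitive outside `Γ` -/
def Fam (G : Subgroup (Perm Ω)) (Γ : Finset Ω) : Prop :=
  ∀ u v, u ∉ Γ → v ∉ Γ → ∃ g ∈ ptw G Γ, g u = v

omit [Fintype Ω] in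
theorem Fam.inter {G : Subgroup (Perm Ω)} {Γ Δ : Finset Ω} (h1 : Fam G Γ) (h2 : Fam G Δ)
    (hex : ∃ w, w ∉ Γ ∧ w ∉ Δ) : Fam G (Γ ∩ Δ) := by
  obtain ⟨w, hw1, hw2⟩ := hex
  have key : ∀ u, u ∉ Γ ∩ Δ → ∃ g ∈ ptw G (Γ ∩ Δ), g u = w := by
    intro u hu
    by_cases h : u ∈ Γ
    · have h' : u ∉ Δ := fun hd => hu (Finset.mem_inter.2 ⟨h, hd⟩)
      obtain ⟨g, hg, hgu⟩ := h2 u w h' hw2
      exact ⟨g, ⟨hg.1, fun x hx => hg.2 x (Finset.mem_inter.1 hx).2⟩, hgu⟩
    · obtain ⟨g, hg, hgu⟩ := h1 u w h hw1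
      exact ⟨g, ⟨hg.1, fun x hx => hg.2 x (Finset.mem_inter.1 hx).1⟩, hgu⟩
  intro u v hu hv
  obtain ⟨g, hg, hgu⟩ := key u hu
  obtain ⟨k, hk, hkv⟩ := key v hv
  refine ⟨k⁻¹ * g, (ptw G (Γ ∩ Δ)).mul_mem ((ptw G (Γ ∩ Δ)).inv_mem hk) hg, ?_⟩
  rw [Perm.mul_apply, hgu, Perm.inv_eq_iff_eq, hkv]

omit [Fintype Ω] in
theorem Fam.image {G : Subgroup (Perm Ω)} {Γ : Finset Ω} (h : Fam G Γ) {g : Perm Ω} (hg : g ∈ G) :
    Fam G (Γ.image g) := by
  intro u v hu hv
  have hu' : g⁻¹ u ∉ Γ := fun h' => hu (Finset.mem_image.2 ⟨_, h', aai g u⟩)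
  have hv' : g⁻¹ v ∉ Γ := fun h' => hv (Finset.mem_image.2 ⟨_, h', aai g v⟩)
  obtain ⟨k, hk, hku⟩ := h _ _ hu' hv'
  refine ⟨g * k * g⁻¹, ⟨G.mul_mem (G.mul_mem hg hk.1) (G.inv_mem hg), fun x hx => ?_⟩, ?_⟩
  · obtain ⟨y, hy, rfl⟩ := Finset.mem_image.1 hx
    show g (k (g⁻¹ (g y))) = g y
    rw [show g⁻¹ (g y) = y from g.symm_apply_apply y, hk.2 y hy]
  · show g (k (g⁻¹ u)) = v
    rw [hku, aai]

omit [Fintype Ω] [DecidableEq Ω] in
theorem Fam.mono {A G : Subgroup (Perm Ω)} (hAG : A ≤ G) {Γ : Finset Ω} (h : Fam A Γ) : Fam G Γ := by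
  intro u v hu hv
  obtain ⟨g, hg, hgu⟩ := h u v hu hv
  exact ⟨g, ⟨hAG hg.1, hg.2⟩, hgu⟩

theorem exists_out {Γ Δ : Finset Ω} (h : Γ.card + Δ.card < Fintype.card Ω) :
    ∃ w, w ∉ Γ ∧ w ∉ Δ := by
  have h1 : (Γ ∪ Δ).card < (Finset.univ : Finset Ω).card := by
    rw [Finset.card_univ]
    exact (Finset.card_union_le Γ Δ).trans_lt h
  obtain ⟨w, -, hw⟩ := Finset.exists_mem_notMem_of_card_lt_card h1
  rw [Finset.mem_union, not_or] at hw
  exact ⟨w, hw⟩

theorem four_trans (A G : Subgroup (Perm Ω)) (hAG : A ≤ G) (line : Ω → Ω → Finset Ω) (q : ℕ)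
    (hl1 : ∀ a b, a ∈ line a b) (hl2 : ∀ a b, b ∈ line a b)
    (hlq : ∀ a b, (line a b).card ≤ q + 1)
    (hl3 : ∃ a b, a ≠ b ∧ ∃ c ∈ line a b, c ≠ a ∧ c ≠ b)
    (hn : 2 * (q + 1) < Fintype.card Ω)
    (hT1 : ∀ a b, a ≠ b → Fam A (line a b))
    (h2t : ∀ a b a' b', a ≠ b → a' ≠ b' → ∃ g ∈ A, g a = a' ∧ g b = b')
    (hP2 : ∀ a b, ∀ Y : Finset Ω, a ≠ b → a ∈ Y → b ∈ Y →
      (∀ g ∈ A, g a = a → g b = b → Y.image g = Y) → (∃ c ∈ Y, c ≠ a ∧ c ≠ b) → q + 1 ≤ Y.card)
    (hP3 : ∃ a b c, a ≠ b ∧ a ≠ c ∧ b ≠ c ∧ ∀ Y : Finset Ω, a ∈ Y → b ∈ Y → c ∈ Y →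
      (∀ g ∈ A, g a = a → g b = b → g c = c → Y.image g = Y) →
      (∃ e ∈ Y, e ≠ a ∧ e ≠ b ∧ e ≠ c) → q + 2 ≤ Y.card)
    (hne : ∃ g ∈ G, ∃ a b c, a ≠ b ∧ c ∈ line a b ∧ g c ∉ line (g a) (g b)) :
    (∀ a b c a' b' c' : Ω, a ≠ b → a ≠ c → b ≠ c → a' ≠ b' → a' ≠ c' → b' ≠ c' →
      ∃ g ∈ G, g a = a' ∧ g b = b' ∧ g c = c') ∧
    ∀ a b c : Ω, a ≠ b → a ≠ c → b ≠ c → Fam G {a, b, c} := by
  classical
  -- Step A
  have hA : ∃ S : Finset Ω, Fam G S ∧ 2 ≤ S.card ∧ S.card ≤ q := by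
    obtain ⟨g, hg, a, b, c, hab, hc, hgc⟩ := hne
    have hgab : g a ≠ g b := fun h => hab (g.injective h)
    have hΓ : Fam G ((line a b).image g) := ((hT1 a b hab).mono hAG).image hg
    have hM : Fam G (line (g a) (g b)) := (hT1 _ _ hgab).mono hAG
    have hΓc : ((line a b).image g).card ≤ q + 1 := by
      rw [Finset.card_image_of_injective _ g.injective]; exact hlq a b
    refine ⟨(line a b).image g ∩ line (g a) (g b), hΓ.inter hM (exists_out ?_), ?_, ?_⟩
    · have := hlq (g a) (g b)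
      omega
    · have h1 : ({g a, g b} : Finset Ω) ⊆ (line a b).image g ∩ line (g a) (g b) := by
        intro x hx
        rw [Finset.mem_insert, Finset.mem_singleton] at hx
        rcases hx with rfl | rfl
        · exact Finset.mem_inter.2 ⟨Finset.mem_image_of_mem _ (hl1 a b), hl1 _ _⟩
        · exact Finset.mem_inter.2 ⟨Finset.mem_image_of_mem _ (hl2 a b), hl2 _ _⟩
      have := Finset.card_le_card h1
      rwa [Finset.card_pair hgab] at this
    · have h1 : (line a b).image g ∩ line (g a) (g b) ⊆ ((line a b).image g).erase (g c) := by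
        intro x hx
        rw [Finset.mem_inter] at hx
        rw [Finset.mem_erase]
        refine ⟨?_, hx.1⟩
        rintro rfl
        exact hgc hx.2
      have h2 := Finset.card_le_card h1
      rw [Finset.card_erase_of_mem (Finset.mem_image_of_mem _ hc)] at h2
      omega
  -- Step B
  have hB : ∃ a b : Ω, a ≠ b ∧ Fam G {a, b} := by
    obtain ⟨S0, hS0, hS02, hS0q⟩ := hA
    obtain ⟨S, hS, hmin⟩ := (Finset.univ.filter fun S : Finset Ω => Fam G S ∧ 2 ≤ S.card).exists_min_image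
      Finset.card ⟨S0, by simp [hS0, hS02]⟩
    simp only [Finset.mem_filter, Finset.mem_univ, true_and] at hS hmin
    obtain ⟨hSF, hS2⟩ := hS
    have hSq : S.card ≤ q := (hmin S0 ⟨hS0, hS02⟩).trans hS0q
    obtain ⟨a, ha, b, hb, hab⟩ := Finset.one_lt_card.1 hS2
    refine ⟨a, b, hab, ?_⟩
    by_cases hc : ∃ c ∈ S, c ≠ a ∧ c ≠ b
    · exfalso
      have h1 : q + 1 ≤ S.card := by
        refine hP2 a b S hab ha hb ?_ hc
        intro g hg hga hgb
        have hcard : (S.image g).card = S.card := Finset.card_image_of_injective _ g.injective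
        have hF : Fam G (S ∩ S.image g) := by
          refine hSF.inter (hSF.image (hAG hg)) (exists_out ?_)
          rw [hcard]; omega
        have hsub : ({a, b} : Finset Ω) ⊆ S ∩ S.image g := by
          intro x hx
          rw [Finset.mem_insert, Finset.mem_singleton] at hx
          rcases hx with rfl | rfl
          · exact Finset.mem_inter.2 ⟨ha, Finset.mem_image.2 ⟨_, ha, hga⟩⟩
          · exact Finset.mem_inter.2 ⟨hb, Finset.mem_image.2 ⟨_, hb, hgb⟩⟩
        have h2 := Finset.card_le_card hsub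
        rw [Finset.card_pair hab] at h2
        have h3 := hmin _ ⟨hF, h2⟩
        have h4 : S ∩ S.image g = S :=
          Finset.eq_of_subset_of_card_le Finset.inter_subset_left h3
        have h5 : S ⊆ S.image g := by
          rw [← h4]; exact (Finset.inter_subset_right).trans (by rw [h4])
        exact (Finset.eq_of_subset_of_card_le h5 hcard.le).symm
      omega
    · have : S = {a, b} := by
        ext x
        rw [Finset.mem_insert, Finset.mem_singleton]
        constructor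
        · intro hx
          by_contra hcon
          rw [not_or] at hcon
          exact hc ⟨x, hx, hcon⟩
        · rintro (rfl | rfl)
          · exact ha
          · exact hb
      rw [← this]; exact hSF
  -- Step C
  have hC : ∀ a b : Ω, a ≠ b → Fam G {a, b} := by
    intro a' b' hab'
    obtain ⟨a, b, hab, hF⟩ := hB
    obtain ⟨g, hg, hga, hgb⟩ := h2t a b a' b' hab hab'
    have := hF.image (hAG hg)
    rwa [Finset.image_insert, Finset.image_singleton, hga, hgb] at this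
  have hC3 : ∀ a b c a' b' c' : Ω, a ≠ b → a ≠ c → b ≠ c → a' ≠ b' → a' ≠ c' → b' ≠ c' →
      ∃ g ∈ G, g a = a' ∧ g b = b' ∧ g c = c' := by
    intro a b c a' b' c' hab hac hbc hab' hac' hbc'
    obtain ⟨g, hg, hga, hgb⟩ := h2t a b a' b' hab hab'
    have h1 : g c ∉ ({a', b'} : Finset Ω) := by
      rw [Finset.mem_insert, Finset.mem_singleton, not_or, ← hga, ← hgb]
      exact ⟨fun h => hac (g.injective h).symm, fun h => hbc (g.injective h).symm⟩
    have h2 : c' ∉ ({a', b'} : Finset Ω) := by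
      rw [Finset.mem_insert, Finset.mem_singleton, not_or]
      exact ⟨hac'.symm, hbc'.symm⟩
    obtain ⟨k, hk, hkc⟩ := hC a' b' hab' (g c) c' h1 h2
    refine ⟨k * g, G.mul_mem hk.1 (hAG hg), ?_, ?_, ?_⟩
    · rw [Perm.mul_apply, hga, hk.2 a' (by simp)]
    · rw [Perm.mul_apply, hgb, hk.2 b' (by simp)]
    · rw [Perm.mul_apply, hkc]
  refine ⟨hC3, ?_⟩
  -- Step D
  have hD : ∃ a b c : Ω, a ≠ b ∧ a ≠ c ∧ b ≠ c ∧ Fam G {a, b, c} := by
    obtain ⟨a0, b0, hab0, c0, hc0, hca0, hcb0⟩ := hl3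
    have hL3 : 3 ≤ (line a0 b0).card := by
      have h1 : ({a0, b0, c0} : Finset Ω) ⊆ line a0 b0 := by
        intro x hx
        simp only [Finset.mem_insert, Finset.mem_singleton] at hx
        rcases hx with rfl | rfl | rfl
        · exact hl1 _ _
        · exact hl2 _ _
        · exact hc0
      have h2 := Finset.card_le_card h1
      rwa [Finset.card_eq_three.2 ⟨a0, b0, c0, hab0, hca0.symm, hcb0.symm, rfl⟩] at h2
    obtain ⟨S, hS, hmin⟩ := (Finset.univ.filter fun S : Finset Ω => Fam G S ∧ 3 ≤ S.card).exists_min_image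
      Finset.card ⟨line a0 b0, by simp [(hT1 a0 b0 hab0).mono hAG, hL3]⟩
    simp only [Finset.mem_filter, Finset.mem_univ, true_and] at hS hmin
    obtain ⟨hSF, hS3⟩ := hS
    have hSq : S.card ≤ q + 1 :=
      (hmin _ ⟨(hT1 a0 b0 hab0).mono hAG, hL3⟩).trans (hlq a0 b0)
    obtain ⟨x, hx, y, hy, z, hz, hxy, hxz, hyz⟩ := Finset.two_lt_card.1 hS3
    obtain ⟨a, b, c, hab, hac, hbc, hP⟩ := hP3
    obtain ⟨k, hk, hkx, hky, hkz⟩ := hC3 x y z a b c hxy hxz hyz hab hac hbc
    set S' := S.image k with hS'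
    have hS'c : S'.card = S.card := Finset.card_image_of_injective _ k.injective
    have hS'F : Fam G S' := hSF.image hk
    have ha : a ∈ S' := Finset.mem_image.2 ⟨x, hx, hkx⟩
    have hb : b ∈ S' := Finset.mem_image.2 ⟨y, hy, hky⟩
    have hc : c ∈ S' := Finset.mem_image.2 ⟨z, hz, hkz⟩
    refine ⟨a, b, c, hab, hac, hbc, ?_⟩
    by_cases he : ∃ e ∈ S', e ≠ a ∧ e ≠ b ∧ e ≠ c
    · exfalso
      have h1 : q + 2 ≤ S'.card := by
        refine hP S' ha hb hc ?_ he
        intro g hg hga hgb hgc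
        have hcard : (S'.image g).card = S'.card := Finset.card_image_of_injective _ g.injective
        have hF : Fam G (S' ∩ S'.image g) := by
          refine hS'F.inter (hS'F.image (hAG hg)) (exists_out ?_)
          rw [hcard]; omega
        have hsub : ({a, b, c} : Finset Ω) ⊆ S' ∩ S'.image g := by
          intro x hx
          simp only [Finset.mem_insert, Finset.mem_singleton] at hx
          rcases hx with rfl | rfl | rfl
          · exact Finset.mem_inter.2 ⟨ha, Finset.mem_image.2 ⟨_, ha, hga⟩⟩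
          · exact Finset.mem_inter.2 ⟨hb, Finset.mem_image.2 ⟨_, hb, hgb⟩⟩
          · exact Finset.mem_inter.2 ⟨hc, Finset.mem_image.2 ⟨_, hc, hgc⟩⟩
        have h2 := Finset.card_le_card hsub
        rw [Finset.card_eq_three.2 ⟨a, b, c, hab, hac, hbc, rfl⟩] at h2
        have h3 := hmin _ ⟨hF, h2⟩
        rw [← hS'c] at h3
        have h4 : S' ∩ S'.image g = S' :=
          Finset.eq_of_subset_of_card_le Finset.inter_subset_left h3
        have h5 : S' ⊆ S'.image g := by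
          intro w hw
          rw [← h4] at hw
          exact (Finset.mem_inter.1 hw).2
        exact (Finset.eq_of_subset_of_card_le h5 hcard.le).symm
      omega
    · have : S' = {a, b, c} := by
        ext w
        simp only [Finset.mem_insert, Finset.mem_singleton]
        constructor
        · intro hw
          by_contra hcon
          push Not at hcon
          exact he ⟨w, hw, hcon⟩
        · rintro (rfl | rfl | rfl)
          · exact ha
          · exact hb
          · exact hc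
      rw [← this]; exact hS'F
  intro a' b' c' hab' hac' hbc'
  obtain ⟨a, b, c, hab, hac, hbc, hF⟩ := hD
  obtain ⟨g, hg, hga, hgb, hgc⟩ := hC3 a b c a' b' c' hab hac hbc hab' hac' hbc'
  have := hF.image hg
  rwa [Finset.image_insert, Finset.image_insert, Finset.image_singleton, hga, hgb, hgc] at this

end

end Pool.Agent.Helper783_PC
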