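import Pool.Agent.Helper783_PC.FTPG

/-!
An odd collineation.
-/

set_option autoImplicit false
set_option linter.unusedSectionVars false

namespace Pool.Agent.Helper783_PC

open Equiv Equiv.Perm

lemma sign_neg {X : Type} [Fintype X] [DecidableEq X] (g : Perm X) (h4 : g ^ 4 = 1)
    (h2 : ∀ x, g (g x) ≠ x) (N : ℕ) (hN : Fintype.card X = 4 * N) (hodd : Odd N) :
    Perm.sign g = -1 := by
  have hct : ∀ n ∈ g.cycleType, n = 4 := by
    intro n hn
    have hd : n ∣ 4 := (dvd_of_mem_cycleType hn).trans (orderOf_dvd_of_pow_eq_one h4)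
    have h2n : 2 ≤ n := two_le_of_mem_cycleType hn
    have hle : n ≤ 4 := Nat.le_of_dvd (by norm_num) hd
    have hne : n ≠ 2 := by
      rintro rfl
      obtain ⟨c, t, hg, hdis, hc, hcard⟩ := mem_cycleType_iff.1 hn
      have hx : ∃ x, x ∈ c.support := by
        have : 0 < c.support.card := by rw [hcard]; norm_num
        exact Finset.card_pos.1 this
      obtain ⟨x, hx⟩ := hx
      have hcx : c (c x) = x := by
        have ho : orderOf c = 2 := by rw [hc.orderOf, hcard]
        have h3 : c ^ 2 = 1 := by rw [← ho, pow_orderOf_eq_one]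
        have := congrArg (fun f : Perm X => f x) h3
        simpa [pow_two] using this
      have ht : ∀ y ∈ c.support, t y = y := by
        intro y hy
        rcases hdis y with h | h
        · exact absurd h (mem_support.1 hy)
        · exact h
      apply h2 x
      rw [hg, Perm.mul_apply, Perm.mul_apply, ht x hx, ht (c x) (apply_mem_support.2 hx), hcx]
    interval_cases n
    · exact absurd rfl hne
    · revert hd; decide
    · rfl
  have hrep : g.cycleType = Multiset.replicate (Multiset.card g.cycleType) 4 :=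
    Multiset.eq_replicate_card.2 hct
  have hsupp : g.support = Finset.univ := by
    rw [Finset.eq_univ_iff_forall]
    intro x
    rw [mem_support]
    intro hx
    exact h2 x (by rw [hx, hx])
  have hsum : g.cycleType.sum = Fintype.card X := by
    rw [sum_cycleType, hsupp, Finset.card_univ]
  have hcard : Multiset.card g.cycleType = N := by
    have h5 := hsum
    rw [hrep, Multiset.sum_replicate, hN, smul_eq_mul] at h5
    omega
  rw [sign_of_cycleType, hsum, hcard, hN]
  have : Odd (4 * N + N) := by
    obtain ⟨k, hk⟩ := hodd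
    exact ⟨5 * k + 2, by omega⟩
  exact this.neg_one_pow

section

variable {K : Type} [Field K] [Finite K]

/-- the rotation of the coordinates -/
def rot : Perm (Fin 4) := finRotate 4

theorem exists_odd {s : K} (hs : ¬ IsSquare s) (N : ℕ) (hN : Fintype.card (P3 K) = 4 * N)
    (hodd : Odd N) : ∃ o ∈ coll K, Perm.sign o = -1 := by
  have hs0 : s ≠ 0 := by
    rintro rfl
    exact hs ⟨0, by simp⟩
  have hc : ∀ k : Fin 4, (![1, 1, 1, s] : Fin 4 → K) k ≠ 0 := by
    intro k
    fin_cases k <;> simp [hs0]
  set m := mono rot ![1, 1, 1, s] hc with hm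
  have happ : ∀ v : Fin 4 → K, m v = ![v 1, v 2, v 3, s * v 0] := by
    intro v
    rw [hm, mono_apply]
    funext k
    fin_cases k <;> simp [rot]
  have hne : ∀ v : Fin 4 → K, v ≠ 0 → m v ≠ 0 := fun v hv => by simpa using hv
  have h2 : ∀ v : Fin 4 → K, v ≠ 0 → lp m (lp m (pt v)) = pt ![v 2, v 3, s * v 0, s * v 1] := by
    intro v hv
    rw [lp_pt _ hv, lp_pt _ (hne v hv), happ, happ]
    rfl
  refine ⟨lp m, lp_mem m, sign_neg (lp m) ?_ ?_ N hN hodd⟩
  · ext1 P
    obtain ⟨v, hv, rfl⟩ := exists_pt P
    have h3 : (lp m ^ 4) (pt v) = lp m (lp m (lp m (lp m (pt v)))) := rfl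
    have hn : (![v 2, v 3, s * v 0, s * v 1] : Fin 4 → K) ≠ 0 := by
      have h4 := hne _ (hne v hv)
      rw [happ, happ] at h4
      exact h4
    rw [h3, h2 v hv, h2 _ hn]
    show pt ![s * v 0, s * v 1, s * v 2, s * v 3] = pt v
    rw [← pt_smul hs0 v]
    congr 1
    funext k
    fin_cases k <;> rfl
  · intro P h
    obtain ⟨v, hv, rfl⟩ := exists_pt P
    have hn : (![v 2, v 3, s * v 0, s * v 1] : Fin 4 → K) ≠ 0 := by
      have h4 := hne _ (hne v hv)
      rw [happ, happ] at h4
      exact h4
    rw [h2 v hv, pt_eq_iff hn hv] at h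
    obtain ⟨c, hc'⟩ := h
    have e0 : c * v 0 = v 2 := congrFun hc' 0
    have e1 : c * v 1 = v 3 := congrFun hc' 1
    have e2 : c * v 2 = s * v 0 := congrFun hc' 2
    have e3 : c * v 3 = s * v 1 := congrFun hc' 3
    by_cases h0 : v 0 = 0
    · by_cases h1 : v 1 = 0
      · apply hv
        rw [h0, mul_zero] at e0
        rw [h1, mul_zero] at e1
        funext k
        fin_cases k
        · exact h0
        · exact h1
        · exact e0.symm
        · exact e1.symm
      · apply hs
        refine ⟨c, mul_right_cancel₀ h1 ?_⟩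
        rw [← e3, ← e1]; ring
    · apply hs
      refine ⟨c, mul_right_cancel₀ h0 ?_⟩
      rw [← e2, ← e0]; ring

end

end Pool.Agent.Helper783_PC
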