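import Mathlib

/-!
The prime `1129⁶ + 1129⁴ + 1129² - 2`.
-/

set_option autoImplicit false

namespace Pool.Agent.Helper783_PC

lemma ne_one {m r : ℕ} (hm : 1 < m) (hr : r < m) (hr1 : r ≠ 1) : (r : ZMod m) ≠ 1 := by
  intro h
  have h1 : (r : ZMod m) = ((1 : ℕ) : ZMod m) := by rw [h]; simp
  rw [ZMod.natCast_eq_natCast_iff', Nat.mod_eq_of_lt hr, Nat.mod_eq_of_lt hm] at h1
  exact hr1 h1

theorem prime_m : Nat.Prime 1661259947 := by
  refine lucas_primality 1661259947 (2 : ZMod 1661259947) ?_ ?_
  · have he : 1661259947 - 1 = 1661259946 := by norm_num
    rw [he]
    reduce_mod_char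
  · intro q hq hd
    have hf : 1661259947 - 1 =
        2 * (19 * 43717367) := by
      norm_num
    rw [hf] at hd
    have hp : ∀ r : ℕ, r.Prime → q ∣ r → q = r :=
      fun r hr h => (Nat.prime_dvd_prime_iff_eq hq hr).1 h
    have hcases : q = 2 ∨ q = 19 ∨ q = 43717367 := by
      rcases (Nat.Prime.dvd_mul hq).1 hd with h | hd
      · left; exact hp 2 (by norm_num) h
      rcases (Nat.Prime.dvd_mul hq).1 hd with h | h
      · right; left; exact hp 19 (by norm_num) h
      · right; right; exact hp 43717367 (by norm_num) h
    rcases hcases with rfl | rfl | rfl
    · have h : (2 : ZMod 1661259947) ^ (830629973 : ℕ) = 1661259946 := by reduce_mod_char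
      have he : (1661259947 - 1) / 2 = 830629973 := by norm_num
      rw [he, h]
      exact_mod_cast ne_one (m := 1661259947) (r := 1661259946) (by norm_num) (by norm_num)
        (by norm_num)
    · have h : (2 : ZMod 1661259947) ^ (87434734 : ℕ) = 1536824067 := by reduce_mod_char
      have he : (1661259947 - 1) / 19 = 87434734 := by norm_num
      rw [he, h]
      exact_mod_cast ne_one (m := 1661259947) (r := 1536824067) (by norm_num) (by norm_num)
        (by norm_num)
    · have h : (2 : ZMod 1661259947) ^ (38 : ℕ) = 770015689 := by reduce_mod_char
      have he : (1661259947 - 1) / 43717367 = 38 := by norm_num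
      rw [he, h]
      exact_mod_cast ne_one (m := 1661259947) (r := 770015689) (by norm_num) (by norm_num)
        (by norm_num)

theorem prime_l : Nat.Prime 2070923194509510241 := by
  refine lucas_primality 2070923194509510241 (7 : ZMod 2070923194509510241) ?_ ?_
  · have he : 2070923194509510241 - 1 = 2070923194509510240 := by norm_num
    rw [he]
    reduce_mod_char
  · intro q hq hd
    have hf : 2070923194509510241 - 1 =
        2 ^ 5 * (3 ^ 2 * (5 * (47 * (113 * (163 * 1661259947))))) := by
      norm_num
    rw [hf] at hd
    have hp : ∀ r : ℕ, r.Prime → q ∣ r → q = r :=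
      fun r hr h => (Nat.prime_dvd_prime_iff_eq hq hr).1 h
    have hcases : q = 2 ∨ q = 3 ∨ q = 5 ∨ q = 47 ∨ q = 113 ∨ q = 163 ∨ q = 1661259947 := by
      rcases (Nat.Prime.dvd_mul hq).1 hd with h | hd
      · left; exact hp 2 (by norm_num) (hq.dvd_of_dvd_pow h)
      rcases (Nat.Prime.dvd_mul hq).1 hd with h | hd
      · right; left; exact hp 3 (by norm_num) (hq.dvd_of_dvd_pow h)
      rcases (Nat.Prime.dvd_mul hq).1 hd with h | hd
      · right; right; left; exact hp 5 (by norm_num) h
      rcases (Nat.Prime.dvd_mul hq).1 hd with h | hd
      · right; right; right; left; exact hp 47 (by norm_num) h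
      rcases (Nat.Prime.dvd_mul hq).1 hd with h | hd
      · right; right; right; right; left; exact hp 113 (by norm_num) h
      rcases (Nat.Prime.dvd_mul hq).1 hd with h | h
      · right; right; right; right; right; left; exact hp 163 (by norm_num) h
      · right; right; right; right; right; right; exact hp 1661259947 prime_m h
    rcases hcases with rfl | rfl | rfl | rfl | rfl | rfl | rfl
    · have h : (7 : ZMod 2070923194509510241) ^ (1035461597254755120 : ℕ) = 2070923194509510240 := by reduce_mod_char
      have he : (2070923194509510241 - 1) / 2 = 1035461597254755120 := by norm_num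
      rw [he, h]
      exact_mod_cast ne_one (m := 2070923194509510241) (r := 2070923194509510240) (by norm_num) (by norm_num)
        (by norm_num)
    · have h : (7 : ZMod 2070923194509510241) ^ (690307731503170080 : ℕ) = 756814740192139231 := by reduce_mod_char
      have he : (2070923194509510241 - 1) / 3 = 690307731503170080 := by norm_num
      rw [he, h]
      exact_mod_cast ne_one (m := 2070923194509510241) (r := 756814740192139231) (by norm_num) (by norm_num)
        (by norm_num)
    · have h : (7 : ZMod 2070923194509510241) ^ (414184638901902048 : ℕ) = 1938709103923423937 := by reduce_mod_char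
      have he : (2070923194509510241 - 1) / 5 = 414184638901902048 := by norm_num
      rw [he, h]
      exact_mod_cast ne_one (m := 2070923194509510241) (r := 1938709103923423937) (by norm_num) (by norm_num)
        (by norm_num)
    · have h : (7 : ZMod 2070923194509510241) ^ (44062195627861920 : ℕ) = 468714731745169942 := by reduce_mod_char
      have he : (2070923194509510241 - 1) / 47 = 44062195627861920 := by norm_num
      rw [he, h]
      exact_mod_cast ne_one (m := 2070923194509510241) (r := 468714731745169942) (by norm_num) (by norm_num)
        (by norm_num)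
    · have h : (7 : ZMod 2070923194509510241) ^ (18326753933712480 : ℕ) = 1736357517365568607 := by reduce_mod_char
      have he : (2070923194509510241 - 1) / 113 = 18326753933712480 := by norm_num
      rw [he, h]
      exact_mod_cast ne_one (m := 2070923194509510241) (r := 1736357517365568607) (by norm_num) (by norm_num)
        (by norm_num)
    · have h : (7 : ZMod 2070923194509510241) ^ (12705050273064480 : ℕ) = 1084996977548754261 := by reduce_mod_char
      have he : (2070923194509510241 - 1) / 163 = 12705050273064480 := by norm_num
      rw [he, h]
      exact_mod_cast ne_one (m := 2070923194509510241) (r := 1084996977548754261) (by norm_num) (by norm_num)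
        (by norm_num)
    · have h : (7 : ZMod 2070923194509510241) ^ (1246597920 : ℕ) = 1891215489244557689 := by reduce_mod_char
      have he : (2070923194509510241 - 1) / 1661259947 = 1246597920 := by norm_num
      rw [he, h]
      exact_mod_cast ne_one (m := 2070923194509510241) (r := 1891215489244557689) (by norm_num) (by norm_num)
        (by norm_num)

end Pool.Agent.Helper783_PC
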