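import Pool.Agent.Helper783_PC.Xmap
import Pool.Agent.Helper783_PC.Prime
import Pool.Agent.Helper783_PC.Odd

/-!
The field with `1129²` elements.
-/

set_option autoImplicit false
set_option linter.unusedSectionVars false

namespace Pool.Agent.Helper783_PC

open Equiv Equiv.Perm

instance fact_p : Fact (Nat.Prime 1129) := ⟨by norm_num⟩

/-- the field with `1129²` elements -/
abbrev KK : Type := GaloisField 1129 2

lemma card_KK : Nat.card KK = 1274641 := by
  rw [GaloisField.card 1129 2 (by norm_num)]
  norm_num

instance fin_KK : Finite KK := Nat.finite_of_card_ne_zero (by rw [card_KK]; norm_num)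

/-- the Frobenius automorphism -/
noncomputable def frob : KK ≃+* KK :=
  RingEquiv.ofBijective (frobenius KK 1129)
    (Finite.injective_iff_bijective.1 (frobenius KK 1129).injective)

lemma frob_apply (a : KK) : frob a = a ^ 1129 := rfl

lemma pow_card (a : KK) : a ^ 1274641 = a := by
  have : Fintype KK := Fintype.ofFinite _
  have h := FiniteField.pow_card a
  rwa [← Nat.card_eq_fintype_card, card_KK] at h

lemma pow_red (a : KK) (n : ℕ) : a ^ (1274641 + n) = a ^ (1 + n) := by
  rw [pow_add, pow_card, pow_add, pow_one]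

lemma aut_sq (σ : KK ≃+* KK) (a : KK) : σ (σ a) = a := by
  have : Fintype KK := Fintype.ofFinite _
  let f : KK ≃ₐ[ZMod 1129] KK := AlgEquiv.ofRingEquiv (f := σ) (by
    intro r
    have := RingHom.congr_fun (Subsingleton.elim ((σ : KK →+* KK).comp (algebraMap (ZMod 1129) KK))
      (algebraMap (ZMod 1129) KK)) r
    exact this)
  have hcard : Nat.card (KK ≃ₐ[ZMod 1129] KK) = 2 := by
    rw [IsGalois.card_aut_eq_finrank, GaloisField.finrank 1129 (by norm_num)]
  have h1 := pow_card_eq_one' (x := f)
  rw [hcard] at h1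
  have h2 := congrArg (fun g : KK ≃ₐ[ZMod 1129] KK => g a) h1
  exact h2

theorem tdata : TData KK (fun a => a ^ 1597) frob where
  mul a b := mul_pow a b _
  one := one_pow _
  inj := by
    intro a b h
    have h1 : (a ^ 1597) ^ 1597 = (b ^ 1597) ^ 1597 := congrArg (· ^ 1597) h
    apply frob.injective
    rw [frob_apply, frob_apply]
    have h2 : ∀ a : KK, (a ^ 1597) ^ 1597 = a ^ 1129 := by
      intro a
      rw [← pow_mul]
      have e1 : 1597 * 1597 = 1274641 + (1274641 + 1127) := by norm_num
      have e2 : 1 + (1274641 + 1127) = 1274641 + 1128 := by norm_num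
      rw [e1, pow_red, e2, pow_red]
    rw [← h2, ← h2, h1]
  sq := by
    intro a
    show (a ^ 1597) ^ 1597 = frob a
    rw [frob_apply, ← pow_mul]
    have e1 : 1597 * 1597 = 1274641 + (1274641 + 1127) := by norm_num
    have e2 : 1 + (1274641 + 1127) = 1274641 + 1128 := by norm_num
    rw [e1, pow_red, e2, pow_red]
  comm σ a := map_pow σ a _
  nosq := by
    rintro ⟨σ, hσ⟩
    have h : ∀ a : KK, a ^ 1129 = a := by
      intro a
      rw [← frob_apply, ← hσ, aut_sq]
    have : Fintype KK := Fintype.ofFinite _
    have hcard : Fintype.card KK = 1274641 := by rw [← Nat.card_eq_fintype_card, card_KK]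
    classical
    have hp : (Polynomial.X ^ 1129 - Polynomial.X : Polynomial KK) ≠ 0 :=
      FiniteField.X_pow_card_sub_X_ne_zero KK (by norm_num)
    have h1 : Fintype.card KK ≤ (Polynomial.X ^ 1129 - Polynomial.X : Polynomial KK).natDegree := by
      have h2 : (Finset.univ : Finset KK) ⊆
          (Polynomial.X ^ 1129 - Polynomial.X : Polynomial KK).roots.toFinset := by
        intro a _
        rw [Multiset.mem_toFinset, Polynomial.mem_roots hp]
        simp [h a]
      calc Fintype.card KK = (Finset.univ : Finset KK).card := rfl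
        _ ≤ _ := Finset.card_le_card h2
        _ ≤ _ := Multiset.toFinset_card_le _
        _ ≤ _ := Polynomial.card_roots' _
    rw [FiniteField.X_pow_card_sub_X_natDegree_eq KK (by norm_num), hcard] at h1
    omega

lemma exists_zeta : ∃ ζ : KKˣ, orderOf ζ = 16 := by
  have : Fintype KK := Fintype.ofFinite _
  obtain ⟨g, hg⟩ := IsCyclic.exists_ofOrder_eq_natCard (α := KKˣ)
  have hc : Nat.card KKˣ = 1274640 := by
    rw [Nat.card_units, card_KK]
  refine ⟨g ^ 79665, ?_⟩
  rw [orderOf_pow_of_dvd (by norm_num) (by rw [hg, hc]; norm_num), hg, hc]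

lemma exists_nonsq : ∃ s : KK, ¬ IsSquare s := by
  have : Fintype KK := Fintype.ofFinite _
  apply FiniteField.exists_nonsquare
  rw [ringChar.eq KK 1129]
  norm_num

theorem card_pts : Fintype.card (P3 KK) = 2070923194509510244 := by
  rw [card_P3, card_KK]
  norm_num

theorem coatom_KK : IsCoatom (coll KK) := by
  obtain ⟨s, hs⟩ := exists_nonsq
  obtain ⟨o, ho, hsign⟩ := exists_odd hs 517730798627377561 (by rw [card_pts])
    ⟨258865399313688780, by norm_num⟩
  refine coatom 2070923194509510241 prime_l (by norm_num) (by rw [card_KK]; norm_num) ?_ o ho hsign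
  intro htop
  exact xp_notMem tdata (htop ▸ Subgroup.mem_top _)

theorem final : ∃ (n : ℕ) (A : Subgroup (Perm (Fin n))), 0 < n ∧ IsCoatom A ∧
    ¬ IsPerfectCode A := by
  obtain ⟨ζ, hζ⟩ := exists_zeta
  let e : P3 KK ≃ Fin 2070923194509510244 := Fintype.equivFinOfCardEq card_pts
  let E : Perm (P3 KK) ≃* Perm (Fin 2070923194509510244) := e.permCongrHom
  refine ⟨2070923194509510244, (coll KK).map E.toMonoidHom, by norm_num, ?_, fun h => ?_⟩
  · have h1 := (OrderIso.isCoatom_iff (MulEquiv.mapSubgroup E) (coll KK)).2 coatom_KK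
    exact h1
  · exact not_perfect tdata ζ hζ (perfect_map E (coll KK) h)

end Pool.Agent.Helper783_PC
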