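import Mathlib

/-!
Perfect codes in Cayley graphs and subgroup perfect codes; the involution criterion.
-/

set_option autoImplicit false

namespace Pool.Agent.Helper783_PC

/-- The Cayley graph `Cay(G,S)` for an inverse-closed `S` not containing the identity: its vertices are the elements
of `G` and its edges are the pairs `{g, s g}`, `s ∈ S`. -/
def cay {G : Type*} [Group G] (S : Set G) (h1 : (1 : G) ∉ S) (hi : ∀ s ∈ S, s⁻¹ ∈ S) :
    SimpleGraph G where
  Adj g h := ∃ s ∈ S, h = s * g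
  symm := by
    constructor
    rintro g h ⟨s, hs, rfl⟩
    exact ⟨s⁻¹, hi s hs, by rw [inv_mul_cancel_left]⟩
  loopless := by
    constructor
    rintro g ⟨s, hs, hg⟩
    have : s = 1 := by
      have h2 : s * g = 1 * g := by rw [one_mul]; exact hg.symm
      exact mul_right_cancel h2
    exact h1 (this ▸ hs)

/-- `C` is a perfect code in the graph `Γ`: each vertex outside `C` has exactly one neighbour in `C`. -/
def IsPerfectCodeIn {V : Type*} (Γ : SimpleGraph V) (C : Set V) : Prop :=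
  ∀ v, v ∉ C → ∃! c, c ∈ C ∧ Γ.Adj v c

/-- The subgroup `A` of `G` is a perfect code of `G`: it is a perfect code in `Cay(G,S)` for at least one inverse-closed
`S ⊆ G ∖ {1}`. -/
def IsPerfectCode {G : Type*} [Group G] (A : Subgroup G) : Prop :=
  ∃ (S : Set G) (h1 : (1 : G) ∉ S) (hi : ∀ s ∈ S, s⁻¹ ∈ S),
    IsPerfectCodeIn (cay S h1 hi) (A : Set G)

section

variable {G : Type*} [Group G]

theorem perfect_iff (A : Subgroup G) : IsPerfectCode A ↔
    ∃ S : Set G, (1 : G) ∉ S ∧ (∀ s ∈ S, s⁻¹ ∈ S) ∧ ∀ g, g ∉ A → ∃! s, s ∈ S ∧ s * g ∈ A := by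
  constructor
  · rintro ⟨S, h1, hi, h⟩
    refine ⟨S, h1, hi, fun g hg => ?_⟩
    obtain ⟨c, ⟨hc, s, hs, rfl⟩, huniq⟩ := h g hg
    refine ⟨s, ⟨hs, hc⟩, ?_⟩
    rintro s' ⟨hs', hs'g⟩
    have := huniq (s' * g) ⟨hs'g, s', hs', rfl⟩
    exact mul_right_cancel this
  · rintro ⟨S, h1, hi, h⟩
    refine ⟨S, h1, hi, fun g hg => ?_⟩
    obtain ⟨s, ⟨hs, hsg⟩, huniq⟩ := h g hg
    refine ⟨s * g, ⟨hsg, s, hs, rfl⟩, ?_⟩
    rintro c ⟨hc, s', hs', rfl⟩
    rw [huniq s' ⟨hs', hc⟩]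

/-- perfect codes are transported by isomorphisms -/
theorem perfect_map {H : Type*} [Group H] (e : G ≃* H) (A : Subgroup G)
    (h : IsPerfectCode (A.map e.toMonoidHom)) : IsPerfectCode A := by
  rw [perfect_iff] at h ⊢
  obtain ⟨S, h1, hi, hS⟩ := h
  have hmem : ∀ g : G, e g ∈ A.map e.toMonoidHom ↔ g ∈ A := by
    intro g
    constructor
    · rintro ⟨a, ha, hag⟩
      have : a = g := e.injective hag
      exact this ▸ ha
    · intro hg
      exact ⟨g, hg, rfl⟩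
  refine ⟨e ⁻¹' S, by simpa using h1, fun s hs => by simpa using hi _ hs, fun g hg => ?_⟩
  obtain ⟨s, ⟨hs, hsg⟩, huniq⟩ := hS (e g) (by rwa [hmem])
  refine ⟨e.symm s, ⟨by simpa using hs, ?_⟩, ?_⟩
  · rw [← hmem, map_mul, e.apply_symm_apply]; exact hsg
  · rintro s' ⟨hs', hs'g⟩
    rw [← hmem, map_mul] at hs'g
    rw [← huniq (e s') ⟨hs', hs'g⟩, e.symm_apply_apply]

/-- the subgroup `A ∩ x⁻¹ A x` of `A` -/
def dsub (A : Subgroup G) (x : G) : Subgroup A where
  carrier := {a | x * (a : G) * x⁻¹ ∈ A}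
  one_mem' := by simp
  mul_mem' := by
    intro a b ha hb
    have : x * ((a * b : A) : G) * x⁻¹ = (x * (a : G) * x⁻¹) * (x * (b : G) * x⁻¹) := by
      rw [Subgroup.coe_mul]; group
    show x * ((a * b : A) : G) * x⁻¹ ∈ A
    rw [this]
    exact A.mul_mem ha hb
  inv_mem' := by
    intro a ha
    have : x * ((a⁻¹ : A) : G) * x⁻¹ = (x * (a : G) * x⁻¹)⁻¹ := by
      rw [Subgroup.coe_inv]; group
    show x * ((a⁻¹ : A) : G) * x⁻¹ ∈ A
    rw [this]
    exact A.inv_mem ha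

theorem mem_dsub {A : Subgroup G} {x : G} {a : A} : a ∈ dsub A x ↔ x * (a : G) * x⁻¹ ∈ A := Iff.rfl

/-- If `A` is a perfect code, `x² ∈ A`, `x ∉ A` and `|A : A ∩ x⁻¹ A x|` is odd, then the coset `x A` contains an
involution. -/
theorem exists_invol [Finite G] (A : Subgroup G) (hA : IsPerfectCode A) (x : G) (hx : x ∉ A)
    (hx2 : x * x ∈ A) (hodd : Odd (dsub A x).index) : ∃ a ∈ A, (x * a) * (x * a) = 1 := by
  classical
  rw [perfect_iff] at hA
  obtain ⟨S, h1, hi, hS⟩ := hA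
  -- the elements of `S` in the double coset
  let T : Type _ := {s : G // s ∈ S ∧ ∃ c ∈ A, ∃ a ∈ A, s = c * x * a⁻¹}
  have hna : ∀ a : A, ((a : G) * x⁻¹) ∉ A := by
    intro a ha
    apply hx
    have := A.inv_mem (A.mul_mem (A.inv_mem a.2) ha)
    simpa using this
  have hex : ∀ a : A, ∃ s : T, s.1 * ((a : G) * x⁻¹) ∈ A := by
    intro a
    obtain ⟨s, ⟨hs, hsA⟩, -⟩ := hS _ (hna a)
    exact ⟨⟨s, hs, s * ((a : G) * x⁻¹), hsA, a, a.2, by group⟩, hsA⟩
  have hun : ∀ a : A, ∀ s s' : T, s.1 * ((a : G) * x⁻¹) ∈ A → s'.1 * ((a : G) * x⁻¹) ∈ A →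
      s = s' := by
    intro a s s' h h'
    obtain ⟨s0, -, hu⟩ := hS _ (hna a)
    apply Subtype.ext
    rw [hu s.1 ⟨s.2.1, h⟩, hu s'.1 ⟨s'.2.1, h'⟩]
  choose f hf using hex
  have hfeq : ∀ a b : A, a⁻¹ * b ∈ dsub A x ↔ f a = f b := by
    intro a b
    rw [mem_dsub]
    constructor
    · intro h
      apply hun b _ _ _ (hf b)
      have := A.mul_mem (hf a) h
      have e : (f a).1 * ((a : G) * x⁻¹) * (x * ((a⁻¹ * b : A) : G) * x⁻¹) =
          (f a).1 * ((b : G) * x⁻¹) := by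
        rw [Subgroup.coe_mul, Subgroup.coe_inv]; group
      rwa [e] at this
    · intro h
      have h2 := A.mul_mem (A.inv_mem (hf a)) (h ▸ hf b : (f a).1 * ((b : G) * x⁻¹) ∈ A)
      have e : ((f a).1 * ((a : G) * x⁻¹))⁻¹ * ((f a).1 * ((b : G) * x⁻¹)) =
          x * ((a⁻¹ * b : A) : G) * x⁻¹ := by
        rw [Subgroup.coe_mul, Subgroup.coe_inv]; group
      rwa [e] at h2
  let F : A ⧸ dsub A x → T := Quotient.lift f (by
    intro a b hab
    exact (hfeq a b).1 (QuotientGroup.leftRel_apply.1 hab))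
  have hF : ∀ a : A, F (a : A ⧸ dsub A x) = f a := fun a => rfl
  have hFbij : Function.Bijective F := by
    constructor
    · intro u v
      induction u using QuotientGroup.induction_on with | _ a => ?_
      induction v using QuotientGroup.induction_on with | _ b => ?_
      intro h
      rw [hF, hF] at h
      exact QuotientGroup.eq.2 ((hfeq a b).2 h)
    · rintro ⟨s, hs, c, hc, a, ha, rfl⟩
      refine ⟨((⟨a, ha⟩ : A) : A ⧸ dsub A x), ?_⟩
      rw [hF]
      apply hun ⟨a, ha⟩ _ _ (hf _)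
      show c * x * a⁻¹ * (a * x⁻¹) ∈ A
      have : c * x * a⁻¹ * (a * x⁻¹) = c := by group
      rwa [this]
  have hcard : Nat.card T = (dsub A x).index := by
    rw [Subgroup.index, Nat.card_congr (Equiv.ofBijective F hFbij)]
  -- inversion on `T`
  have hinvT : ∀ s : T, s.1⁻¹ ∈ S ∧ ∃ c ∈ A, ∃ a ∈ A, s.1⁻¹ = c * x * a⁻¹ := by
    rintro ⟨s, hs, c, hc, a, ha, rfl⟩
    refine ⟨hi _ hs, a * (x * x)⁻¹, A.mul_mem ha (A.inv_mem hx2), c, hc, ?_⟩
    group
  let ι : Function.End T := fun s => ⟨s.1⁻¹, hinvT s⟩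
  have hι : ι ^ 2 ^ 1 = 1 := by
    funext s
    apply Subtype.ext
    show ((s.1⁻¹)⁻¹ : G) = s.1
    rw [inv_inv]
  have : Fintype T := Fintype.ofFinite T
  have : Fact (Nat.Prime 2) := ⟨Nat.prime_two⟩
  have hmod := Equiv.Perm.card_fixedPoints_modEq (p := 2) (n := 1) hι
  have hpos : ∃ s : T, ι s = s := by
    by_contra hcon
    push Not at hcon
    have h0 : Fintype.card ι.fixedPoints = 0 := by
      rw [Fintype.card_eq_zero_iff]
      exact ⟨fun s => hcon s.1 s.2⟩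
    rw [h0] at hmod
    rw [← hcard, Nat.card_eq_fintype_card] at hodd
    rw [Nat.odd_iff] at hodd
    unfold Nat.ModEq at hmod
    omega
  obtain ⟨⟨s, hs, c, hc, a, ha, rfl⟩, hfix⟩ := hpos
  have hfix' : (c * x * a⁻¹)⁻¹ = c * x * a⁻¹ := congrArg Subtype.val hfix
  refine ⟨a⁻¹ * c, A.mul_mem (A.inv_mem ha) hc, ?_⟩
  have h2 : (c * x * a⁻¹) * (c * x * a⁻¹) = 1 := by
    have := mul_inv_cancel (c * x * a⁻¹)
    rwa [hfix'] at this
  have h3 : x * (a⁻¹ * c) * (x * (a⁻¹ * c)) = c⁻¹ * ((c * x * a⁻¹) * (c * x * a⁻¹)) * c := by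
    group
  rw [h3, h2]
  group

end

end Pool.Agent.Helper783_PC
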