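import Pool.Agent.Helper783_PC.Max

/-!
The projective space `PG(3,q)`: lines, collineations, homologies.
-/

set_option autoImplicit false

namespace Pool.Agent.Helper783_PC

open Equiv Equiv.Perm

/-- the points of the projective space `PG(3,K)` -/
abbrev P3 (K : Type) [Field K] : Type := Projectivization K (Fin 4 → K)

section

variable {K : Type} [Field K]

lemma one_ne : (fun _ => 1 : Fin 4 → K) ≠ 0 := fun h => one_ne_zero (congrFun h 0)

open scoped Classical in
/-- the point of a vector (an arbitrary point for the zero vector) -/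
noncomputable def pt (v : Fin 4 → K) : P3 K :=
  if h : v ≠ 0 then Projectivization.mk K v h else Projectivization.mk K _ one_ne

lemma pt_mk (v : Fin 4 → K) (h : v ≠ 0) : Projectivization.mk K v h = pt v := by
  rw [pt, dif_pos h]

lemma exists_pt (P : P3 K) : ∃ v : Fin 4 → K, v ≠ 0 ∧ P = pt v :=
  ⟨P.rep, P.rep_nonzero, by rw [← pt_mk _ P.rep_nonzero, P.mk_rep]⟩

lemma pt_eq_iff {u v : Fin 4 → K} (hu : u ≠ 0) (hv : v ≠ 0) :
    pt u = pt v ↔ ∃ c : K, c • v = u := by
  rw [← pt_mk u hu, ← pt_mk v hv, Projectivization.mk_eq_mk_iff']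

lemma pt_smul {c : K} (hc : c ≠ 0) (v : Fin 4 → K) : pt (c • v) = pt v := by
  by_cases hv : v = 0
  · subst hv; rw [smul_zero]
  · exact (pt_eq_iff (smul_ne_zero hc hv) hv).2 ⟨c, rfl⟩

lemma rep_pt {v : Fin 4 → K} (hv : v ≠ 0) : ∃ c : K, c ≠ 0 ∧ (pt v).rep = c • v := by
  obtain ⟨a, ha⟩ := Projectivization.exists_smul_eq_mk_rep K v hv
  refine ⟨a, a.ne_zero, ?_⟩
  rw [← pt_mk v hv, ← ha]
  rfl

/-- the point `P` lies in the subspace `W` -/
def On (P : P3 K) (W : Submodule K (Fin 4 → K)) : Prop := P.rep ∈ W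

lemma on_pt {v : Fin 4 → K} (hv : v ≠ 0) (W : Submodule K (Fin 4 → K)) : On (pt v) W ↔ v ∈ W := by
  obtain ⟨c, hc, h⟩ := rep_pt hv
  unfold On
  rw [h]
  exact W.smul_mem_iff hc

/-- the join of two points -/
noncomputable def join (P Q : P3 K) : Submodule K (Fin 4 → K) := Submodule.span K {P.rep, Q.rep}

lemma join_pt {u v : Fin 4 → K} (hu : u ≠ 0) (hv : v ≠ 0) :
    join (pt u) (pt v) = Submodule.span K {u, v} := by
  obtain ⟨c, hc, h⟩ := rep_pt hu
  obtain ⟨c', hc', h'⟩ := rep_pt hv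
  unfold join
  rw [h, h']
  apply le_antisymm
  · rw [Submodule.span_le]
    rintro x (rfl | rfl)
    · exact Submodule.smul_mem _ _ (Submodule.subset_span (by simp))
    · exact Submodule.smul_mem _ _ (Submodule.subset_span (by simp))
  · rw [Submodule.span_le]
    rintro x (rfl | rfl)
    · rw [SetLike.mem_coe, ← Submodule.smul_mem_iff _ hc]
      exact Submodule.subset_span (by simp)
    · rw [SetLike.mem_coe, ← Submodule.smul_mem_iff _ hc']
      exact Submodule.subset_span (by simp)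

/-- `R` is on the line `P Q` -/
def Col (P Q R : P3 K) : Prop := On R (join P Q)

lemma col_pt {u v w : Fin 4 → K} (hu : u ≠ 0) (hv : v ≠ 0) (hw : w ≠ 0) :
    Col (pt u) (pt v) (pt w) ↔ ∃ a b : K, a • u + b • v = w := by
  unfold Col
  rw [join_pt hu hv, on_pt hw, Submodule.mem_span_pair]

lemma col_left (P Q : P3 K) : Col P Q P := Submodule.subset_span (by simp)

lemma col_right (P Q : P3 K) : Col P Q Q := Submodule.subset_span (by simp)

lemma col_self {P R : P3 K} (h : Col P P R) : R = P := by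
  obtain ⟨u, hu, rfl⟩ := exists_pt P
  obtain ⟨w, hw, rfl⟩ := exists_pt R
  obtain ⟨a, b, hab⟩ := (col_pt hu hu hw).1 h
  rw [pt_eq_iff hw hu]
  exact ⟨a + b, by rw [add_smul]; exact hab⟩

/-- subspaces containing two points contain the line -/
lemma on_of_col {P Q R : P3 K} {W : Submodule K (Fin 4 → K)} (h : Col P Q R) (hP : On P W)
    (hQ : On Q W) : On R W := by
  have h1 : join P Q ≤ W := by
    unfold join
    rw [Submodule.span_le]
    rintro x (rfl | rfl)
    · exact hP
    · exact hQ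
  exact h1 h

variable [Finite K]

instance instFinP3 : Finite (P3 K) := inferInstance

noncomputable instance instFintypeP3 : Fintype (P3 K) := Fintype.ofFinite _

noncomputable instance instDecP3 : DecidableEq (P3 K) := Classical.decEq _

/-- collineations: permutations of the points preserving collinearity -/
def Pres (g : Perm (P3 K)) : Prop := ∀ P Q R, Col P Q R → Col (g P) (g Q) (g R)

lemma Pres.mul {g h : Perm (P3 K)} (hg : Pres g) (hh : Pres h) : Pres (g * h) :=
  fun P Q R hc => hg _ _ _ (hh _ _ _ hc)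

lemma Pres.one : Pres (1 : Perm (P3 K)) := fun _ _ _ hc => hc

lemma Pres.pow {g : Perm (P3 K)} (hg : Pres g) (n : ℕ) : Pres (g ^ n) := by
  induction n with
  | zero => rw [pow_zero]; exact Pres.one
  | succ n ih => rw [pow_succ]; exact ih.mul hg

lemma Pres.inv {g : Perm (P3 K)} (hg : Pres g) : Pres g⁻¹ := by
  have h1 : g⁻¹ = g ^ (orderOf g - 1) := by
    have hpos : 0 < orderOf g := orderOf_pos g
    rw [inv_eq_iff_mul_eq_one, ← pow_succ', Nat.sub_add_cancel hpos, pow_orderOf_eq_one]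
  rw [h1]
  exact hg.pow _

variable (K) in
/-- the group of all collineations of `PG(3,K)` -/
def coll : Subgroup (Perm (P3 K)) where
  carrier := {g | Pres g}
  mul_mem' := fun hg hh => hg.mul hh
  one_mem' := Pres.one
  inv_mem' := fun hg => hg.inv

omit [Finite K] in
lemma mk_smul_pt (f : (Fin 4 → K) ≃ₗ[K] (Fin 4 → K)) {v : Fin 4 → K} (hv : v ≠ 0) :
    f • (pt v : P3 K) = pt (f v) := by
  rw [← pt_mk v hv, Projectivization.smul_mk, pt_mk]
  rfl

/-- the collineation of a linear automorphism -/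
noncomputable def lp (f : (Fin 4 → K) ≃ₗ[K] (Fin 4 → K)) : Perm (P3 K) := MulAction.toPerm f

omit [Finite K] in
lemma lp_pt (f : (Fin 4 → K) ≃ₗ[K] (Fin 4 → K)) {v : Fin 4 → K} (hv : v ≠ 0) :
    lp f (pt v) = pt (f v) := mk_smul_pt f hv

/-- semilinear maps give collineations -/
lemma pres_of {g : Perm (P3 K)} (F : (Fin 4 → K) → (Fin 4 → K)) (σ : K → K)
    (hF0 : ∀ v, v ≠ 0 → F v ≠ 0)
    (hF : ∀ (a b : K) (u v : Fin 4 → K), F (a • u + b • v) = σ a • F u + σ b • F v)
    (hg : ∀ v, v ≠ 0 → g (pt v) = pt (F v)) : g ∈ coll K := by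
  intro P Q R hc
  obtain ⟨u, hu, rfl⟩ := exists_pt P
  obtain ⟨v, hv, rfl⟩ := exists_pt Q
  obtain ⟨w, hw, rfl⟩ := exists_pt R
  obtain ⟨a, b, rfl⟩ := (col_pt hu hv hw).1 hc
  rw [hg u hu, hg v hv, hg _ hw, hF]
  rw [col_pt (hF0 u hu) (hF0 v hv) (by rw [← hF]; exact hF0 _ hw)]
  exact ⟨σ a, σ b, rfl⟩

lemma lp_mem (f : (Fin 4 → K) ≃ₗ[K] (Fin 4 → K)) : lp f ∈ coll K :=
  pres_of f id (fun v hv => by simpa using hv) (fun a b u v => by simp)
    fun v hv => lp_pt f hv

/-! ### transitivity -/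

omit [Finite K] in
/-- a functional vanishing on `W` but not at `u`, `v` -/
lemma exists_functional (W : Submodule K (Fin 4 → K)) {u v : Fin 4 → K} (hu : u ∉ W) (hv : v ∉ W) :
    ∃ f : (Fin 4 → K) →ₗ[K] K, f u ≠ 0 ∧ f v ≠ 0 ∧ ∀ w ∈ W, f w = 0 := by
  obtain ⟨f1, hf1, hW1⟩ := Submodule.exists_le_ker_of_notMem hu
  obtain ⟨f2, hf2, hW2⟩ := Submodule.exists_le_ker_of_notMem hv
  have g1 : ∀ w ∈ W, f1 w = 0 := fun w hw => LinearMap.mem_ker.1 (hW1 hw)
  have g2 : ∀ w ∈ W, f2 w = 0 := fun w hw => LinearMap.mem_ker.1 (hW2 hw)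
  by_cases h1 : f1 v = 0
  · by_cases h2 : f2 u = 0
    · exact ⟨f1 + f2, by simpa [h2] using hf1, by simpa [h1] using hf2,
        fun w hw => by simp [g1 w hw, g2 w hw]⟩
    · exact ⟨f2, h2, hf2, g2⟩
  · exact ⟨f1, hf1, h1, g1⟩

omit [Finite K] in
/-- the linear maps fixing `W` pointwise are transitive outside `W` -/
lemma exists_lin (W : Submodule K (Fin 4 → K)) {u v : Fin 4 → K} (hu : u ∉ W) (hv : v ∉ W) :
    ∃ f : (Fin 4 → K) ≃ₗ[K] (Fin 4 → K), (∀ w ∈ W, f w = w) ∧ f u = v := by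
  obtain ⟨f, hfu, hfv, hfW⟩ := exists_functional W hu hv
  let h : (Fin 4 → K) →ₗ[K] (Fin 4 → K) :=
    LinearMap.id + (f.smulRight ((f u)⁻¹ • (v - u)))
  have hh : ∀ y, h y = y + f y • ((f u)⁻¹ • (v - u)) := fun y => rfl
  have hinj : Function.Injective h := by
    rw [injective_iff_map_eq_zero]
    intro y hy
    rw [hh] at hy
    have h1 : f y * (f u)⁻¹ * f v = 0 := by
      have h2 := congrArg f hy
      rw [map_add, map_smul, map_smul, map_sub, map_zero, smul_eq_mul, smul_eq_mul] at h2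
      have h3 : f y + f y * ((f u)⁻¹ * (f v - f u)) = f y * (f u)⁻¹ * f v := by
        field_simp; ring
      rw [← h3]; exact h2
    have h4 : f y = 0 := by
      rcases mul_eq_zero.1 h1 with h5 | h5
      · rcases mul_eq_zero.1 h5 with h6 | h6
        · exact h6
        · exact absurd h6 (inv_ne_zero hfu)
      · exact absurd h5 hfv
    rw [h4, zero_smul, add_zero] at hy
    exact hy
  refine ⟨LinearEquiv.ofInjectiveEndo h hinj, fun w hw => ?_, ?_⟩
  · rw [LinearEquiv.coe_ofInjectiveEndo, hh, hfW w hw, zero_smul, add_zero]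
  · rw [LinearEquiv.coe_ofInjectiveEndo, hh, smul_smul, mul_inv_cancel₀ hfu, one_smul]
    simp

open scoped Classical in
/-- the points of the line `P Q` -/
noncomputable def line (P Q : P3 K) : Finset (P3 K) := Finset.univ.filter fun R => Col P Q R

lemma mem_line {P Q R : P3 K} : R ∈ line P Q ↔ Col P Q R := by
  simp [line]

lemma line_fam {P Q : P3 K} : Fam (coll K) (line P Q) := by
  intro A B hA hB
  rw [mem_line] at hA hB
  obtain ⟨u, hu, rfl⟩ := exists_pt A
  obtain ⟨v, hv, rfl⟩ := exists_pt B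
  have hu' : u ∉ join P Q := fun h => hA ((on_pt hu _).2 h)
  have hv' : v ∉ join P Q := fun h => hB ((on_pt hv _).2 h)
  obtain ⟨f, hf, hfu⟩ := exists_lin (join P Q) hu' hv'
  refine ⟨lp f, ⟨lp_mem f, fun R hR => ?_⟩, by rw [lp_pt f hu, hfu]⟩
  rw [mem_line] at hR
  obtain ⟨w, hw, rfl⟩ := exists_pt R
  rw [lp_pt f hw, hf w ((on_pt hw _).1 hR)]

lemma two_trans (a b a' b' : P3 K) (h : a ≠ b) (h' : a' ≠ b') :
    ∃ g ∈ coll K, g a = a' ∧ g b = b' := by
  obtain ⟨u, hu, rfl⟩ := exists_pt a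
  obtain ⟨v, hv, rfl⟩ := exists_pt b
  obtain ⟨u', hu', rfl⟩ := exists_pt a'
  obtain ⟨v', hv', rfl⟩ := exists_pt b'
  have h0 : u ∉ (⊥ : Submodule K (Fin 4 → K)) := by rw [Submodule.mem_bot]; exact hu
  have h0' : u' ∉ (⊥ : Submodule K (Fin 4 → K)) := by rw [Submodule.mem_bot]; exact hu'
  obtain ⟨f, -, hf⟩ := exists_lin ⊥ h0 h0'
  have hfv : f v ≠ 0 := by simpa using hv
  have h1 : f v ∉ Submodule.span K {u'} := by
    intro hm
    obtain ⟨c, hc⟩ := Submodule.mem_span_singleton.1 hm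
    apply h
    have hc0 : c ≠ 0 := by
      rintro rfl
      rw [zero_smul] at hc
      exact hfv hc.symm
    rw [pt_eq_iff hu hv]
    refine ⟨c⁻¹, ?_⟩
    apply f.injective
    rw [map_smul, ← hc, hf, smul_smul, inv_mul_cancel₀ hc0, one_smul]
  have h2 : v' ∉ Submodule.span K {u'} := by
    intro hm
    obtain ⟨c, hc⟩ := Submodule.mem_span_singleton.1 hm
    apply h'
    exact ((pt_eq_iff hv' hu').2 ⟨c, hc⟩).symm
  obtain ⟨f', hf', hf'v⟩ := exists_lin _ h1 h2
  refine ⟨lp f' * lp f, (coll K).mul_mem (lp_mem f') (lp_mem f), ?_, ?_⟩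
  · rw [Perm.mul_apply, lp_pt f hu, hf, lp_pt f' hu',
      hf' u' (Submodule.mem_span_singleton_self u')]
  · rw [Perm.mul_apply, lp_pt f hv, lp_pt f' hfv, hf'v]

/-! ### homologies -/

omit [Finite K] in
/-- the homology with centre `w`, axis `f = 0` and multiplier `c` -/
noncomputable def hom (f : (Fin 4 → K) →ₗ[K] K) (w : Fin 4 → K) (hfw : f w = 1) (c : K)
    (hc : c ≠ 0) : (Fin 4 → K) ≃ₗ[K] (Fin 4 → K) where
  toFun y := y + ((c - 1) * f y) • w
  map_add' x y := by
    rw [map_add, mul_add, add_smul]; abel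
  map_smul' a x := by
    rw [map_smul, smul_eq_mul, RingHom.id_apply, smul_add, smul_smul]
    congr 2
    ring
  invFun y := y + ((c⁻¹ - 1) * f y) • w
  left_inv y := by
    show (y + ((c - 1) * f y) • w) + ((c⁻¹ - 1) * f (y + ((c - 1) * f y) • w)) • w = y
    rw [map_add, map_smul, hfw, smul_eq_mul, mul_one, add_assoc, ← add_smul]
    have : (c - 1) * f y + (c⁻¹ - 1) * (f y + (c - 1) * f y) = 0 := by
      field_simp; ring
    rw [this, zero_smul, add_zero]
  right_inv y := by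
    show (y + ((c⁻¹ - 1) * f y) • w) + ((c - 1) * f (y + ((c⁻¹ - 1) * f y) • w)) • w = y
    rw [map_add, map_smul, hfw, smul_eq_mul, mul_one, add_assoc, ← add_smul]
    have : (c⁻¹ - 1) * f y + (c - 1) * (f y + (c⁻¹ - 1) * f y) = 0 := by
      field_simp; ring
    rw [this, zero_smul, add_zero]

omit [Finite K] in
lemma hom_apply (f : (Fin 4 → K) →ₗ[K] K) (w : Fin 4 → K) (hfw : f w = 1) (c : K)
    (hc : c ≠ 0) (y : Fin 4 → K) : hom f w hfw c hc y = y + ((c - 1) * f y) • w := rfl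

lemma orbit_card (f : (Fin 4 → K) →ₗ[K] K) (w : Fin 4 → K) (hfw : f w = 1) (v : Fin 4 → K)
    (hfv : f v ≠ 0) (hvw : v ∉ Submodule.span K {w}) (Y T : Finset (P3 K)) (hTY : T ⊆ Y)
    (hvY : pt v ∈ Y) (hvT : pt v ∉ T)
    (hinv : ∀ (c : K) (hc : c ≠ 0), Y.image (lp (hom f w hfw c hc)) = Y)
    (hT : ∀ (c : K) (hc : c ≠ 0), ∀ t ∈ T, lp (hom f w hfw c hc) t = t) :
    T.card + (Nat.card K - 1) ≤ Y.card := by
  classical
  have : Fintype K := Fintype.ofFinite K
  have hv0 : v ≠ 0 := by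
    rintro rfl
    exact hvw (Submodule.zero_mem _)
  have hw0 : w ≠ 0 := by
    rintro rfl
    rw [map_zero] at hfw
    exact zero_ne_one hfw
  let φ : {c : K // c ≠ 0} → P3 K := fun c => lp (hom f w hfw c.1 c.2) (pt v)
  have hφ : ∀ c, φ c = pt (v + ((c.1 - 1) * f v) • w) := fun c => by
    show lp (hom f w hfw c.1 c.2) (pt v) = _
    rw [lp_pt _ hv0, hom_apply]
  have hne : ∀ s : K, v + s • w ≠ 0 := by
    intro s h
    apply hvw
    rw [Submodule.mem_span_singleton]
    exact ⟨-s, by rw [neg_smul]; exact (eq_neg_of_add_eq_zero_left h).symm⟩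
  have hinj : Function.Injective φ := by
    intro c c' h
    rw [hφ, hφ, pt_eq_iff (hne _) (hne _)] at h
    obtain ⟨a, ha⟩ := h
    have h1 : (1 - a) • v = (a * ((c'.1 - 1) * f v) - (c.1 - 1) * f v) • w := by
      rw [smul_add, smul_smul] at ha
      rw [sub_smul, one_smul, sub_smul, sub_eq_sub_iff_add_eq_add, ← ha]
      abel
    have h2 : a = 1 := by
      by_contra hne1
      apply hvw
      rw [Submodule.mem_span_singleton]
      have h3 : (1 - a) ≠ 0 := sub_ne_zero.2 (Ne.symm hne1)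
      refine ⟨(1 - a)⁻¹ * (a * ((c'.1 - 1) * f v) - (c.1 - 1) * f v), ?_⟩
      rw [← smul_smul, ← h1, smul_smul, inv_mul_cancel₀ h3, one_smul]
    rw [h2, sub_self, zero_smul, one_mul] at h1
    have h3 := (smul_eq_zero.1 h1.symm).resolve_right hw0
    rw [← sub_mul] at h3
    have h4 := (mul_eq_zero.1 h3).resolve_right hfv
    apply Subtype.ext
    linear_combination -h4
  have hsub : (Finset.univ.image φ) ⊆ Y := by
    intro P hP
    obtain ⟨c, -, rfl⟩ := Finset.mem_image.1 hP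
    rw [← hinv c.1 c.2]
    exact Finset.mem_image_of_mem _ hvY
  have hdisj : Disjoint T (Finset.univ.image φ) := by
    rw [Finset.disjoint_left]
    intro t ht h
    obtain ⟨c, -, hc⟩ := Finset.mem_image.1 h
    apply hvT
    have h1 : lp (hom f w hfw c.1 c.2) (pt v) = lp (hom f w hfw c.1 c.2) t := by
      rw [hT c.1 c.2 t ht]; exact hc
    rw [(lp (hom f w hfw c.1 c.2)).injective h1]
    exact ht
  have hcard : (Finset.univ.image φ).card = Nat.card K - 1 := by
    rw [Finset.card_image_of_injective _ hinj, Finset.card_univ, Fintype.card_subtype_compl,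
      Fintype.card_subtype_eq, Nat.card_eq_fintype_card]
  rw [← hcard, ← Finset.card_union_of_disjoint hdisj]
  exact Finset.card_le_card (Finset.union_subset hTY hsub)

omit [Finite K] in
lemma exists_fw {ι : Type} [Finite ι] [Nonempty ι] (a : ι → Fin 4 → K) (ha : LinearIndependent K a)
    (v : Fin 4 → K) (hv0 : v ≠ 0) (hv : ∀ i, v ∉ Submodule.span K {a i}) :
    ∃ (f : (Fin 4 → K) →ₗ[K] K) (w : Fin 4 → K), f w = 1 ∧ f v ≠ 0 ∧ v ∉ Submodule.span K {w} ∧
      ∀ i, f (a i) = 0 ∨ ∃ s : K, s ≠ 0 ∧ a i = s • w := by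
  classical
  have : Fintype ι := Fintype.ofFinite ι
  by_cases hvs : v ∈ Submodule.span K (Set.range a)
  · obtain ⟨x, hx⟩ := (Submodule.mem_span_range_iff_exists_fun K).1 hvs
    obtain ⟨i, hi⟩ : ∃ i, x i ≠ 0 := by
      by_contra hcon
      push Not at hcon
      apply hv0
      rw [← hx]
      simp [hcon]
    have hai : a i ∉ Submodule.span K (a '' {j | j ≠ i}) := by
      have := ha.notMem_span_image (s := {j | j ≠ i}) (x := i) (by simp)
      exact this
    obtain ⟨f0, hf0, hf0W⟩ := Submodule.exists_le_ker_of_notMem hai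
    refine ⟨(f0 (a i))⁻¹ • f0, a i, ?_, ?_, hv i, ?_⟩
    · rw [LinearMap.smul_apply, smul_eq_mul, inv_mul_cancel₀ hf0]
    · rw [LinearMap.smul_apply, smul_eq_mul, ← hx, map_sum, Finset.sum_eq_single i]
      · rw [map_smul, smul_eq_mul]
        exact mul_ne_zero (inv_ne_zero hf0) (mul_ne_zero hi hf0)
      · intro j _ hj
        rw [map_smul]
        have : f0 (a j) = 0 :=
          LinearMap.mem_ker.1 (hf0W (Submodule.subset_span ⟨j, hj, rfl⟩))
        rw [this, smul_zero]
      · intro h; exact absurd (Finset.mem_univ i) h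
    · intro j
      by_cases hj : j = i
      · right
        exact ⟨1, one_ne_zero, by rw [hj, one_smul]⟩
      · left
        have : f0 (a j) = 0 :=
          LinearMap.mem_ker.1 (hf0W (Submodule.subset_span ⟨j, hj, rfl⟩))
        rw [LinearMap.smul_apply, this, smul_zero]
  · obtain ⟨f0, hf0, hf0W⟩ := Submodule.exists_le_ker_of_notMem hvs
    obtain ⟨i0⟩ := ‹Nonempty ι›
    have h0 : ∀ i, f0 (a i) = 0 := fun i =>
      LinearMap.mem_ker.1 (hf0W (Submodule.subset_span ⟨i, rfl⟩))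
    refine ⟨(f0 v)⁻¹ • f0, v + a i0, ?_, ?_, ?_, ?_⟩
    · rw [LinearMap.smul_apply, map_add, h0, add_zero, smul_eq_mul, inv_mul_cancel₀ hf0]
    · rw [LinearMap.smul_apply, smul_eq_mul, inv_mul_cancel₀ hf0]
      exact one_ne_zero
    · intro hm
      obtain ⟨s, hs⟩ := Submodule.mem_span_singleton.1 hm
      have h1 := congrArg f0 hs
      rw [map_smul, map_add, h0, add_zero, smul_eq_mul] at h1
      have h2 : s = 1 := by
        have : (s - 1) * f0 v = 0 := by rw [sub_mul, one_mul, h1, sub_self]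
        exact sub_eq_zero.1 ((mul_eq_zero.1 this).resolve_right hf0)
      rw [h2, one_smul] at hs
      have h3 : a i0 = 0 := by simpa using hs
      exact ha.ne_zero i0 h3
    · intro i
      left
      rw [LinearMap.smul_apply, h0, smul_zero]

/-- Lemma H: a set invariant under the collineations fixing independent points, which contains them and
another point, is large -/
lemma large {ι : Type} [Finite ι] [Nonempty ι] (a : ι → Fin 4 → K) (ha : LinearIndependent K a)
    (Y T : Finset (P3 K)) (hTa : ∀ t ∈ T, ∃ i, t = pt (a i)) (haT : ∀ i, pt (a i) ∈ T)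
    (hTY : T ⊆ Y)
    (hinv : ∀ g ∈ coll K, (∀ i, g (pt (a i)) = pt (a i)) → Y.image g = Y)
    (P : P3 K) (hP : P ∈ Y) (hPT : P ∉ T) : T.card + (Nat.card K - 1) ≤ Y.card := by
  obtain ⟨v, hv0, rfl⟩ := exists_pt P
  have ha0 : ∀ i, a i ≠ 0 := fun i => ha.ne_zero i
  have hv : ∀ i, v ∉ Submodule.span K {a i} := by
    intro i hm
    obtain ⟨c, hc⟩ := Submodule.mem_span_singleton.1 hm
    apply hPT
    rw [(pt_eq_iff hv0 (ha0 i)).2 ⟨c, hc⟩]
    exact haT i
  obtain ⟨f, w, hfw, hfv, hvw, hfa⟩ := exists_fw a ha v hv0 hv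
  have hfix : ∀ (c : K) (hc : c ≠ 0) (i : ι), lp (hom f w hfw c hc) (pt (a i)) = pt (a i) := by
    intro c hc i
    rw [lp_pt _ (ha0 i), hom_apply]
    rcases hfa i with h | ⟨s, hs, h⟩
    · rw [h, mul_zero, zero_smul, add_zero]
    · have h2 : a i + ((c - 1) * f (a i)) • w = c • a i := by
        rw [h, map_smul, hfw, smul_eq_mul, mul_one, smul_smul, ← add_smul]
        congr 1
        ring
      rw [h2, pt_smul hc]
  refine orbit_card f w hfw v hfv hvw Y T hTY hP hPT ?_ ?_
  · intro c hc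
    exact hinv _ (lp_mem _) (hfix c hc)
  · intro c hc t ht
    obtain ⟨i, rfl⟩ := hTa t ht
    exact hfix c hc i

end

end Pool.Agent.Helper783_PC
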