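import Pool.Agent.Helper783_PC.FTPG
import Pool.Agent.Helper783_PC.Perfect

/-!
The coordinatewise map `x : [v] ↦ [τ v]`; the coset `x A` contains no involution and `|A : A ∩ A^x|`
is odd, for `A` the group of all collineations.
-/

set_option autoImplicit false
set_option linter.unusedSectionVars false

namespace Pool.Agent.Helper783_PC

open Equiv Equiv.Perm

/-- the data: `τ` is a multiplicative map with `τ² = φ`, `φ` an automorphism which is not a square -/
structure TData (K : Type) [Field K] (τ : K → K) (φ : K ≃+* K) : Prop where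
  mul : ∀ a b, τ (a * b) = τ a * τ b
  one : τ 1 = 1
  inj : Function.Injective τ
  sq : ∀ a, τ (τ a) = φ a
  comm : ∀ (σ : K ≃+* K) (a : K), σ (τ a) = τ (σ a)
  nosq : ¬ ∃ σ : K ≃+* K, ∀ a, σ (σ a) = φ a

section

variable {K : Type} [Field K] [Finite K] {τ : K → K} {φ : K ≃+* K}

namespace TData

variable (D : TData K τ φ)
include D

lemma zero : τ 0 = 0 := by
  have h1 : τ 0 * τ 0 = τ 0 := by rw [← D.mul, zero_mul]
  by_contra h
  have h2 : τ 0 = 1 := by
    have h3 : τ 0 * τ 0 = τ 0 * 1 := by rw [h1, mul_one]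
    exact mul_left_cancel₀ h h3
  rw [← D.one] at h2
  exact zero_ne_one (D.inj h2)

lemma ne {a : K} (h : a ≠ 0) : τ a ≠ 0 := by
  intro h0
  rw [← D.zero] at h0
  exact h (D.inj h0)

lemma neg_one : τ (-1) = -1 := by
  have h1 : τ (-1) * τ (-1) = 1 := by rw [← D.mul, neg_mul_neg, one_mul, D.one]
  rcases mul_self_eq_one_iff.1 h1 with h2 | h2
  · have h3 : (-1 : K) = 1 := D.inj (by rw [h2, D.one])
    rw [h2, h3]
  · exact h2

lemma neg (a : K) : τ (-a) = -τ a := by
  have : -a = -1 * a := by ring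
  rw [this, D.mul, D.neg_one]; ring

lemma bij : Function.Bijective τ := Finite.injective_iff_bijective.1 D.inj

/-- `τ` is not additive -/
lemma not_add (h : ∀ a b, τ (a + b) = τ a + τ b) : False := by
  let σh : K →+* K :=
    { toFun := τ
      map_one' := D.one
      map_mul' := D.mul
      map_zero' := D.zero
      map_add' := h }
  exact D.nosq ⟨RingEquiv.ofBijective σh D.bij, D.sq⟩

lemma not_add' {c : K} (hc : c ≠ 0) (h : ∀ b, τ (c + b) = τ c + τ b) : False := by
  have h1 : ∀ b, τ (1 + b) = 1 + τ b := by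
    intro b
    have h2 := h (c * b)
    have h3 : c + c * b = c * (1 + b) := by ring
    rw [h3, D.mul, D.mul] at h2
    refine mul_left_cancel₀ (D.ne hc) ?_
    rw [h2]; ring
  refine D.not_add fun a b => ?_
  by_cases ha : a = 0
  · rw [ha, zero_add, D.zero, zero_add]
  · have h2 : a + b = a * (1 + a⁻¹ * b) := by field_simp
    rw [h2, D.mul, h1, mul_add, mul_one, ← D.mul, mul_inv_cancel_left₀ ha]

lemma vne {v : Fin 4 → K} (hv : v ≠ 0) : (fun k => τ (v k)) ≠ 0 := by
  obtain ⟨i, hi⟩ := Function.ne_iff.1 hv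
  exact nz_of (i := i) (D.ne hi)

end TData

/-- the map `[v] ↦ [τ v]` -/
noncomputable def xf (τ : K → K) (P : P3 K) : P3 K := pt fun k => τ (P.rep k)

lemma xf_pt (D : TData K τ φ) {v : Fin 4 → K} (hv : v ≠ 0) :
    xf τ (pt v) = pt fun k => τ (v k) := by
  obtain ⟨c, hc, h⟩ := rep_pt hv
  unfold xf
  rw [h, ← pt_smul (D.ne hc) (fun k => τ (v k))]
  congr 1
  funext k
  exact D.mul _ _

lemma xf_inj (D : TData K τ φ) : Function.Injective (xf τ) := by
  intro P Q h
  obtain ⟨u, hu, rfl⟩ := exists_pt P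
  obtain ⟨v, hv, rfl⟩ := exists_pt Q
  rw [xf_pt D hu, xf_pt D hv, pt_eq_iff (D.vne hu) (D.vne hv)] at h
  obtain ⟨c, hc⟩ := h
  obtain ⟨d, rfl⟩ := D.bij.2 c
  rw [pt_eq_iff hu hv]
  refine ⟨d, ?_⟩
  funext k
  apply D.inj
  have := congrFun hc k
  simp only [Pi.smul_apply, smul_eq_mul] at this ⊢
  rw [D.mul]
  exact this

/-- the permutation `x` -/
noncomputable def xp (D : TData K τ φ) : Perm (P3 K) :=
  Equiv.ofBijective (xf τ) (Finite.injective_iff_bijective.1 (xf_inj D))

lemma xp_pt (D : TData K τ φ) {v : Fin 4 → K} (hv : v ≠ 0) :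
    xp D (pt v) = pt fun k => τ (v k) := xf_pt D hv

lemma xp_sq (D : TData K τ φ) : xp D * xp D ∈ coll K := by
  refine pres_of (fun v k => φ (v k)) φ ?_ ?_ ?_
  · intro v hv
    obtain ⟨i, hi⟩ := Function.ne_iff.1 hv
    exact nz_of (i := i) (by simpa using hi)
  · intro a b u v
    funext k
    simp
  · intro v hv
    rw [Perm.mul_apply, xp_pt D hv, xp_pt D (D.vne hv)]
    congr 1
    funext k
    exact D.sq _

/-- the points at which `x` preserves lines -/
def Sp (D : TData K τ φ) (P : P3 K) : Prop :=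
  ∀ Q R, Col P Q R → Col (xp D P) (xp D Q) (xp D R)

lemma sp_bp (D : TData K τ φ) (i : Fin 4) : Sp D (bp i) := by
  intro Q R h
  obtain ⟨u, hu, rfl⟩ := exists_pt Q
  obtain ⟨w, hw, rfl⟩ := exists_pt R
  unfold bp at h ⊢
  rw [col_pt (single_ne i) hu hw] at h
  obtain ⟨a, b, hab⟩ := h
  rw [xp_pt D (single_ne i), xp_pt D hu, xp_pt D hw, col_pt (D.vne (single_ne i)) (D.vne hu)
    (D.vne hw)]
  refine ⟨τ (w i) - τ b * τ (u i), τ b, ?_⟩
  funext k
  have hk := congrFun hab k
  simp only [Pi.add_apply, Pi.smul_apply, smul_eq_mul] at hk ⊢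
  by_cases hki : k = i
  · subst hki
    rw [Pi.single_eq_same, D.one]; ring
  · rw [Pi.single_eq_of_ne hki] at hk ⊢
    rw [D.zero, mul_zero, zero_add, ← D.mul, ← hk, mul_zero, zero_add]

lemma pt_eq_bp {v : Fin 4 → K} (hv : v ≠ 0) (h : ∀ i j, v i ≠ 0 → v j ≠ 0 → i = j) :
    ∃ i, pt v = bp i := by
  obtain ⟨i, hi⟩ := Function.ne_iff.1 hv
  refine ⟨i, ?_⟩
  unfold bp
  rw [pt_eq_iff hv (single_ne i)]
  refine ⟨v i, ?_⟩
  funext k
  by_cases hk : k = i
  · subst hk; simp
  · have : v k = 0 := by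
      by_contra h0
      exact hk (h k i h0 hi)
    simp [hk, this]

lemma sp_imp (D : TData K τ φ) {P : P3 K} (h : Sp D P) : ∃ i, P = bp i := by
  obtain ⟨v, hv, rfl⟩ := exists_pt P
  apply pt_eq_bp hv
  intro i j hi hj
  by_contra hij
  have hex : ∀ i j : Fin 4, ∃ m : Fin 4, i ≠ m ∧ j ≠ m := by decide
  obtain ⟨k, hik, hjk⟩ := hex i j
  have key : ∀ b l : K, τ (v j + l * b) - τ (v j) = τ b * (τ (v k + l) - τ (v k)) := by
    intro b l
    set q : Fin 4 → K := Pi.single k 1 + b • Pi.single j 1 with hq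
    have qi : q i = 0 := by rw [hq]; simp [hik, hij]
    have qj : q j = b := by rw [hq]; simp [hjk]
    have qk : q k = 1 := by rw [hq]; simp [hjk.symm]
    have hq0 : q ≠ 0 := nz_of (i := k) (by rw [qk]; exact one_ne_zero)
    have hr0 : v + l • q ≠ 0 := nz_of (i := i) (by simp [qi, hi])
    have h1 := h (pt q) (pt (v + l • q)) ((col_pt hv hq0 hr0).2 ⟨1, l, by simp⟩)
    rw [xp_pt D hv, xp_pt D hq0, xp_pt D hr0, col_pt (D.vne hv) (D.vne hq0) (D.vne hr0)] at h1
    obtain ⟨a, c, hac⟩ := h1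
    have ei := congrFun hac i
    have ej := congrFun hac j
    have ek := congrFun hac k
    simp only [Pi.add_apply, Pi.smul_apply, smul_eq_mul, qi, qj, qk, mul_zero, add_zero, D.zero,
      D.one, mul_one] at ei ej ek
    have ha : a = 1 := mul_right_cancel₀ (D.ne hi) (by rw [ei, one_mul])
    rw [ha, one_mul] at ej ek
    rw [← ej, ← ek]
    ring
  refine D.not_add' hj fun μ => ?_
  by_cases hk : v k = 0
  · have := key 1 μ
    rw [hk, mul_one, zero_add, D.zero, D.one, one_mul, sub_zero] at this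
    rw [← this]; ring
  · have := key (-μ / v k) (-v k)
    have e1 : -v k * (-μ / v k) = μ := by field_simp
    rw [e1, add_neg_cancel, D.zero, zero_sub, mul_neg, ← D.mul, div_mul_cancel₀ _ hk, D.neg,
      neg_neg] at this
    rw [← this]; ring

/-- `x` is not a collineation -/
lemma xp_notMem (D : TData K τ φ) : xp D ∉ coll K := by
  intro h
  obtain ⟨i, hi⟩ := sp_imp D (P := pt fun _ => 1) fun Q R hc => h _ _ _ hc
  unfold bp at hi
  rw [pt_eq_iff one_ne (single_ne i)] at hi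
  obtain ⟨c, hc⟩ := hi
  obtain ⟨j, hj⟩ : ∃ j : Fin 4, j ≠ i := by
    have hex : ∀ i : Fin 4, ∃ m : Fin 4, m ≠ i := by decide
    exact hex i
  have := congrFun hc j
  simp [hj] at this

lemma mono_ne {π : Perm (Fin 4)} {c : Fin 4 → K} (hc : ∀ k, c k ≠ 0) {f : K → K}
    (hf : ∀ a, a ≠ 0 → f a ≠ 0) {v : Fin 4 → K} (hv : v ≠ 0) :
    (fun k => c k * f (v (π k))) ≠ 0 := by
  obtain ⟨i, hi⟩ := Function.ne_iff.1 hv
  refine nz_of (i := π.symm i) ?_
  show c (π.symm i) * f (v (π (π.symm i))) ≠ 0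
  rw [Equiv.apply_symm_apply]
  exact mul_ne_zero (hc _) (hf _ hi)

/-- the coset `x A` contains no involution -/
theorem no_invol (D : TData K τ φ) {a : Perm (P3 K)} (ha : a ∈ coll K)
    (h : (xp D * a) * (xp D * a) = 1) : False := by
  set x := xp D with hx
  have hb : x * a = (a⁻¹ * (x * x)⁻¹) * x := by
    have h1 : x * a = (x * a)⁻¹ := eq_inv_of_mul_eq_one_left h
    calc x * a = (x * a)⁻¹ := h1
      _ = (a⁻¹ * (x * x)⁻¹) * x := by group
  have hbm : a⁻¹ * (x * x)⁻¹ ∈ coll K :=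
    (coll K).mul_mem ((coll K).inv_mem ha) ((coll K).inv_mem (xp_sq D))
  set b := a⁻¹ * (x * x)⁻¹ with hbdef
  have hbx : ∀ P, x (a P) = b (x P) := fun P => by
    have := congrArg (fun g : Perm (P3 K) => g P) hb
    exact this
  have hfr : ∀ i, ∃ j, a (bp i) = bp j := by
    intro i
    apply sp_imp D
    intro Q R hc
    have h1 := (coll K).inv_mem ha _ _ _ hc
    have e1 : a⁻¹ (a (bp i)) = bp i := a.symm_apply_apply _
    rw [e1] at h1
    have h2 := hbm _ _ _ (sp_bp D i _ _ h1)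
    rw [← hx, ← hbx, ← hbx, ← hbx] at h2
    have e2 : ∀ P, a (a⁻¹ P) = P := fun P => a.apply_symm_apply _
    rw [e2, e2] at h2
    exact h2
  obtain ⟨π, c, σ, hc, -, hform⟩ := ftpg ha hfr
  have hσne : ∀ a : K, a ≠ 0 → σ a ≠ 0 := fun a ha => by simpa using ha
  set d : Fin 4 → K := fun k => τ (c k * σ (τ (c (π k)))) with hd
  have hdne : ∀ k, d k ≠ 0 := fun k => D.ne (mul_ne_zero (hc k) (hσne _ (D.ne (hc _))))
  have hform2 : ∀ v : Fin 4 → K, v ≠ 0 →
      ∃ l : K, ∀ k, l * v k = d k * φ (σ (σ (v (π (π k))))) := by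
    intro v hv
    have n1 : (fun k => c k * σ (v (π k))) ≠ 0 := mono_ne hc hσne hv
    have n2 : (fun k => τ (c k * σ (v (π k)))) ≠ 0 := D.vne n1
    have n3 : (fun k => c k * σ (τ (c (π k) * σ (v (π (π k)))))) ≠ 0 := mono_ne hc hσne n2
    have h1 : (x * a * (x * a)) (pt v) = pt v := by rw [h]; rfl
    rw [Perm.mul_apply, Perm.mul_apply, Perm.mul_apply, hform v hv, hx, xp_pt D n1, hform _ n2,
      xp_pt D n3, pt_eq_iff (D.vne n3) hv] at h1
    obtain ⟨l, hl⟩ := h1
    refine ⟨l, fun k => ?_⟩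
    have h2 := congrFun hl k
    simp only [Pi.smul_apply, smul_eq_mul] at h2
    rw [h2, hd]
    simp only
    have e1 : σ (τ (c (π k) * σ (v (π (π k))))) = σ (τ (c (π k))) * τ (σ (σ (v (π (π k))))) := by
      rw [D.mul, map_mul, D.comm σ (σ _)]
    rw [e1, ← mul_assoc, D.mul, D.sq]
  have hd1 : ∀ k, d k = d 0 := by
    intro k
    obtain ⟨l, hl⟩ := hform2 (fun _ => 1) one_ne
    have e1 := hl k
    have e2 := hl 0
    simp only [map_one, mul_one] at e1 e2
    rw [← e1, e2]
  have hπ : ∀ i, π (π i) = i := by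
    intro i
    obtain ⟨l, hl⟩ := hform2 (Pi.single (π (π i)) 1) (single_ne _)
    have e1 := hl i
    rw [Pi.single_eq_same, map_one, map_one, map_one, mul_one] at e1
    by_contra hne
    rw [Pi.single_eq_of_ne (Ne.symm hne), mul_zero] at e1
    exact hdne i e1.symm
  refine D.nosq ⟨σ.symm, fun s => ?_⟩
  have key : ∀ s, φ (σ (σ s)) = s := by
    intro s
    have n1 : (![1, s, 0, 0] : Fin 4 → K) ≠ 0 := nz_of (i := 0) (by simp)
    obtain ⟨l, hl⟩ := hform2 _ n1
    have e0 := hl 0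
    have e1 := hl 1
    rw [hπ] at e0 e1
    rw [hd1] at e1
    simp at e0 e1
    rw [e0] at e1
    exact (mul_left_cancel₀ (hdne 0) e1).symm
  have := key (σ.symm (σ.symm s))
  rw [σ.apply_symm_apply, σ.apply_symm_apply] at this
  exact this.symm

/-- the stabilizer of the frame -/
def fr : Subgroup (coll K) where
  carrier := {a | ∀ i, ∃ j, (a : Perm (P3 K)) (bp i) = bp j}
  one_mem' := fun i => ⟨i, rfl⟩
  mul_mem' := by
    intro a b ha hb i
    obtain ⟨j, hj⟩ := hb i
    obtain ⟨k, hk⟩ := ha j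
    refine ⟨k, ?_⟩
    rw [Subgroup.coe_mul, Perm.mul_apply, hj, hk]
  inv_mem' := by
    intro a ha i
    obtain ⟨π, c, σ, -, hπ, -⟩ := ftpg a.2 ha
    refine ⟨π i, ?_⟩
    rw [Subgroup.coe_inv, Perm.inv_eq_iff_eq]
    exact (hπ i).symm

lemma fr_le (D : TData K τ φ) : fr ≤ dsub (coll K) (xp D) := by
  intro a ha
  rw [mem_dsub]
  obtain ⟨π, c, σ, hc, -, hform⟩ := ftpg a.2 ha
  have hσne : ∀ a : K, a ≠ 0 → σ a ≠ 0 := fun a ha => by simpa using ha
  refine pres_of (fun v k => τ (c k) * σ (v (π k))) σ ?_ ?_ ?_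
  · intro v hv
    exact mono_ne (fun k => D.ne (hc k)) hσne hv
  · intro r s u v
    funext k
    simp
    ring
  · intro v hv
    obtain ⟨τi, hτi⟩ := Function.Surjective.hasRightInverse D.bij.2
    have hu : (fun k => τi (v k)) ≠ 0 := by
      obtain ⟨i, hi⟩ := Function.ne_iff.1 hv
      refine nz_of (i := i) fun h0 => hi ?_
      rw [← hτi (v i), h0, D.zero]; rfl
    have h1 : (xp D)⁻¹ (pt v) = pt (fun k => τi (v k)) := by
      rw [Perm.inv_eq_iff_eq, xp_pt D hu]
      congr 1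
      funext k
      exact (hτi _).symm
    rw [Perm.mul_apply, Perm.mul_apply, h1, hform _ hu, xp_pt D (mono_ne hc hσne hu)]
    congr 1
    funext k
    rw [D.mul, ← D.comm, hτi]

lemma diag_pow (c : Fin 4 → K) (hc : ∀ k, c k ≠ 0) (n : ℕ) {v : Fin 4 → K} (hv : v ≠ 0) :
    (lp (mono 1 c hc) ^ n) (pt v) = pt (fun k => c k ^ n * v k) := by
  induction n with
  | zero => simp
  | succ n ih =>
    have hn : (fun k => c k ^ n * v k) ≠ 0 := by
      obtain ⟨i, hi⟩ := Function.ne_iff.1 hv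
      exact nz_of (i := i) (mul_ne_zero (pow_ne_zero _ (hc i)) hi)
    rw [pow_succ', Perm.mul_apply, ih, lp_pt _ hn, mono_apply]
    congr 1
    funext k
    rw [pow_succ']
    simp
    ring

theorem odd_fr (ζ : Kˣ) (hζ : orderOf ζ = 16) : Odd (fr (K := K)).index := by
  classical
  have hne : ∀ k : Fin 4, ((ζ ^ (k : ℕ) : Kˣ) : K) ≠ 0 := fun k => Units.ne_zero _
  let g0 : coll K := ⟨lp (mono 1 (fun k : Fin 4 => ((ζ ^ (k : ℕ) : Kˣ) : K)) hne), lp_mem _⟩
  have h16 : g0 ^ 16 = 1 := by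
    apply Subtype.ext
    ext1 P
    obtain ⟨v, hv, rfl⟩ := exists_pt P
    rw [Subgroup.coe_pow]
    show (lp (mono 1 (fun k : Fin 4 => ((ζ ^ (k : ℕ) : Kˣ) : K)) hne) ^ 16) (pt v) = pt v
    rw [diag_pow _ _ _ hv]
    congr 1
    funext k
    have hz : ((ζ ^ (k : ℕ) : Kˣ) : K) ^ 16 = 1 := by
      rw [← Units.val_pow_eq_pow_val, ← pow_mul, mul_comm, pow_mul, ← hζ, pow_orderOf_eq_one,
        one_pow, Units.val_one]
    rw [hz, one_mul]
  have h12 : ∀ P : P3 K, (g0 ^ 12 : coll K).1 P = P → ∃ i, P = bp i := by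
    intro P hP
    obtain ⟨v, hv, rfl⟩ := exists_pt P
    rw [Subgroup.coe_pow] at hP
    change (lp (mono 1 (fun k : Fin 4 => ((ζ ^ (k : ℕ) : Kˣ) : K)) hne) ^ 12) (pt v) = pt v at hP
    rw [diag_pow _ _ _ hv, pt_eq_iff _ hv] at hP
    · obtain ⟨l, hl⟩ := hP
      apply pt_eq_bp hv
      have hk : ∀ k : Fin 4, v k ≠ 0 → l = ((ζ ^ ((k : ℕ) * 12) : Kˣ) : K) := by
        intro k hk
        have := congrFun hl k
        simp only [Pi.smul_apply, smul_eq_mul] at this
        have h2 := mul_right_cancel₀ hk this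
        rw [h2, ← Units.val_pow_eq_pow_val, ← pow_mul]
      intro i j hi hj
      have h1 := hk i hi
      rw [hk j hj] at h1
      have h2 := Units.ext h1
      rw [pow_inj_mod, hζ] at h2
      revert h2
      clear * -
      revert i j
      decide
    · obtain ⟨i, hi⟩ := Function.ne_iff.1 hv
      exact nz_of (i := i) (mul_ne_zero (pow_ne_zero _ (hne i)) hi)
  have hg0 : g0 ∈ fr (K := K) := by
    intro i
    refine ⟨i, ?_⟩
    show lp (mono 1 (fun k : Fin 4 => ((ζ ^ (k : ℕ) : Kˣ) : K)) hne) (bp i) = bp i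
    unfold bp
    have := diag_pow _ hne 1 (single_ne i)
    rw [pow_one] at this
    rw [this, pt_eq_iff _ (single_ne i)]
    · refine ⟨((ζ ^ (i : ℕ) : Kˣ) : K), ?_⟩
      funext k
      by_cases hk : k = i
      · subst hk; simp
      · simp [hk]
    · exact nz_of (i := i) (by simp)
  let f : Function.End (coll K ⧸ fr (K := K)) := fun c => g0 • c
  have hfn : ∀ (n : ℕ) (c : coll K ⧸ fr (K := K)), (f ^ n) c = g0 ^ n • c := by
    intro n
    induction n with
    | zero => intro c; rw [pow_zero, pow_zero, one_smul]; rfl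
    | succ n ih =>
      intro c
      rw [pow_succ, pow_succ]
      show (f ^ n) (g0 • c) = _
      rw [ih, smul_smul]
  have hf : f ^ 2 ^ 4 = 1 := by
    funext c
    have h2 : (2 : ℕ) ^ 4 = 16 := by norm_num
    rw [h2, hfn, h16, one_smul]
    rfl
  have : Finite (coll K ⧸ fr (K := K)) := inferInstance
  have : Fintype (coll K ⧸ fr (K := K)) := Fintype.ofFinite _
  have : Fact (Nat.Prime 2) := ⟨Nat.prime_two⟩
  have hmod := Equiv.Perm.card_fixedPoints_modEq (p := 2) (n := 4) hf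
  have huniq : ∀ c : coll K ⧸ fr (K := K), f c = c ↔ c = ((1 : coll K) : coll K ⧸ fr (K := K)) := by
    intro c
    induction c using QuotientGroup.induction_on with | _ a => ?_
    constructor
    · intro h
      have h1 : (a⁻¹ * (g0 * a))⁻¹ ∈ fr (K := K) := by
        have h2 : ((g0 * a : coll K) : coll K ⧸ fr (K := K)) = (a : coll K ⧸ fr (K := K)) := h
        have h3 := QuotientGroup.eq.1 h2
        have h4 : (a⁻¹ * (g0 * a))⁻¹ = (g0 * a)⁻¹ * a := by group
        rw [h4]; exact h3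
      rw [inv_mem_iff] at h1
      set u : coll K := a⁻¹ * (g0 * a) with hu
      obtain ⟨π, c, σ, -, hπ, -⟩ := ftpg u.2 h1
      have hpow : ∀ (n : ℕ) (i : Fin 4), ((u ^ n : coll K) : Perm (P3 K)) (bp ((π ^ n) i)) = bp i := by
        intro n
        induction n with
        | zero => intro i; rfl
        | succ n ih =>
          intro i
          rw [pow_succ' π, pow_succ u, Subgroup.coe_mul, Perm.mul_apply, Perm.mul_apply, hπ, ih]
      have hπ12 : π ^ 12 = 1 := by
        have hall : ∀ π : Perm (Fin 4), π ^ 12 = 1 := by decide +kernel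
        exact hall π
      have hu12 : u ^ 12 = a⁻¹ * (g0 ^ 12 * a) := by
        rw [hu, ← mul_assoc, ← mul_assoc]
        have := conj_pow (i := 12) (a := a⁻¹) (b := g0)
        rwa [inv_inv] at this
      have hmem : a ∈ fr (K := K) := by
        intro i
        apply h12
        have h2 := hpow 12 i
        rw [hπ12, hu12, Subgroup.coe_mul, Subgroup.coe_mul, Perm.mul_apply, Perm.mul_apply,
          Subgroup.coe_inv, Perm.inv_eq_iff_eq] at h2
        exact h2
      exact (QuotientGroup.eq.2 (by simpa using hmem)).symm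
    · intro h
      rw [h]
      show ((g0 * 1 : coll K) : coll K ⧸ fr (K := K)) = _
      rw [mul_one]
      exact (QuotientGroup.eq.2 (by simpa using hg0)).symm
  have hcard : Fintype.card f.fixedPoints = 1 := by
    rw [Fintype.card_eq_one_iff]
    refine ⟨⟨((1 : coll K) : coll K ⧸ fr (K := K)), (huniq _).2 rfl⟩, ?_⟩
    rintro ⟨c, hc⟩
    exact Subtype.ext ((huniq c).1 hc)
  rw [hcard] at hmod
  rw [Nat.odd_iff, Subgroup.index, Nat.card_eq_fintype_card]
  exact hmod

/-- `A` is not a perfect code -/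
theorem not_perfect (D : TData K τ φ) (ζ : Kˣ) (hζ : orderOf ζ = 16) :
    ¬ IsPerfectCode (coll K) := by
  intro h
  have hodd : Odd (dsub (coll K) (xp D)).index :=
    Odd.of_dvd_nat (odd_fr ζ hζ) (Subgroup.index_dvd_of_le (fr_le D))
  obtain ⟨a, ha, ha2⟩ := exists_invol (coll K) h (xp D) (xp_notMem D) (xp_sq D) hodd
  exact no_invol D ha ha2

end

end Pool.Agent.Helper783_PC
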